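import Mathlib

/-!
# Connected bipartite Turán numbers of paths

For `k ≥ 5` let `q = ⌊(k - 1) / 2⌋`.  We show that the maximum number of edges of a connected
spanning subgraph of `K_{n,n}` without a path on `k` vertices is `q n + O(1)`.

Upper bound: for `t = 0, …, q` we delete vertices of the left part of degree at most `t` and
vertices of the right part of degree at most `q - t`.  If the graph has more than `q n + C` edges,
a large subgraph remains.  As it has no long path, deleting at most `k` vertices (the set `Z`)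
splits it into many pieces.  Looking at a longest path of each piece one finds a long path
or a flexible connected structure, which uses only hubs of one colour, and a suitable combination
of two such structures gives a path on `2 q + 2` vertices.
-/

set_option linter.unusedSectionVars false
set_option linter.unusedVariables false
set_option maxHeartbeats 4000000

namespace Pool.Agent.Results.MP_792a66_co.ConnectedPaths

open Finset

/-! ## Definition used in the statement -/

/-- The maximum number of edges of a connected spanning subgraph of `K_{a,b}` without a path on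
`k` vertices. -/
noncomputable def exbc (a b k : ℕ) : ℕ :=
  sSup {e | ∃ G : SimpleGraph (Fin a ⊕ Fin b), G ≤ completeBipartiteGraph (Fin a) (Fin b) ∧
    G.Connected ∧ (SimpleGraph.pathGraph k).Free G ∧ G.edgeSet.ncard = e}

/-! ## Paths as lists -/

/-- A path, given by the list of its vertices. -/
def IsP {V : Type*} (G : SimpleGraph V) (l : List V) : Prop := l.IsChain G.Adj ∧ l.Nodup

section basics

variable {V : Type*} {G : SimpleGraph V}

theorem IsP.reverse {l : List V} (h : IsP G l) : IsP G l.reverse := by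
  refine ⟨?_, List.nodup_reverse.2 h.2⟩
  rw [List.isChain_reverse]
  exact h.1.imp (fun a b hab => hab.symm)

theorem IsP.append {l₁ l₂ : List V} (h₁ : IsP G l₁) (h₂ : IsP G l₂) (hd : ∀ x ∈ l₁, x ∉ l₂)
    (hl : ∀ x ∈ l₁.getLast?, ∀ y ∈ l₂.head?, G.Adj x y) : IsP G (l₁ ++ l₂) := by
  refine ⟨h₁.1.append h₂.1 hl, ?_⟩
  rw [List.nodup_append]
  refine ⟨h₁.2, h₂.2, ?_⟩
  intro a ha b hb hab
  subst hab
  exact hd a ha hb

theorem IsP.cons {a : V} {l : List V} (h : IsP G l) (ha : a ∉ l) (hl : ∀ y ∈ l.head?, G.Adj a y) :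
    IsP G (a :: l) :=
  ⟨h.1.cons hl, List.nodup_cons.2 ⟨ha, h.2⟩⟩

theorem IsP.singleton (a : V) : IsP G [a] := ⟨List.isChain_singleton a, List.nodup_singleton a⟩

theorem IsP.left {l₁ l₂ : List V} (h : IsP G (l₁ ++ l₂)) : IsP G l₁ :=
  ⟨h.1.left_of_append, (List.nodup_append.1 h.2).1⟩

theorem IsP.right {l₁ l₂ : List V} (h : IsP G (l₁ ++ l₂)) : IsP G l₂ :=
  ⟨h.1.right_of_append, (List.nodup_append.1 h.2).2.1⟩

/-- In a path the colours alternate. -/
theorem count_color (c : V → Bool) (hc : ∀ u v, G.Adj u v → c u ≠ c v) :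
    ∀ (l : List V) (a : V), (a :: l).IsChain G.Adj →
      (a :: l).countP (fun x => c x != c a) = (a :: l).length / 2 ∧
      (a :: l).countP (fun x => c x == c a) = ((a :: l).length + 1) / 2 := by
  intro l
  induction l with
  | nil =>
    intro a _
    simp
  | cons b l ih =>
    intro a h
    rw [List.isChain_cons_cons] at h
    obtain ⟨h1, h2⟩ := ih b h.2
    have hab := hc a b h.1
    have e1 : (b :: l).countP (fun x => c x != c a) = (b :: l).countP (fun x => c x == c b) := by
      apply List.countP_congr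
      intro x _
      cases hx : c x <;> cases ha : c a <;> cases hb : c b <;> simp_all
    have e2 : (b :: l).countP (fun x => c x == c a) = (b :: l).countP (fun x => c x != c b) := by
      apply List.countP_congr
      intro x _
      cases hx : c x <;> cases ha : c a <;> cases hb : c b <;> simp_all
    constructor
    · rw [List.countP_cons, e1, h2]
      simp
    · rw [List.countP_cons, e2, h1]
      simp
      omega

variable [DecidableEq V]

theorem card_color (c : V → Bool) (hc : ∀ u v, G.Adj u v → c u ≠ c v) {l : List V} {a : V}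
    (h : IsP G (a :: l)) : ((a :: l).toFinset.filter (fun x => c x ≠ c a)).card =
      (a :: l).length / 2 := by
  rw [← (count_color c hc l a h.1).1, List.countP_eq_length_filter,
    ← List.toFinset_card_of_nodup (h.2.filter (fun x => c x != c a)), List.toFinset_filter]
  congr 1
  apply Finset.filter_congr
  intro x _
  simp

/-- If all neighbours of the head in `L` are in the path, their number is at most half of the
length. -/
theorem card_nbr_le [DecidableRel G.Adj] (c : V → Bool) (hc : ∀ u v, G.Adj u v → c u ≠ c v)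
    {l : List V} {a : V} (h : IsP G (a :: l)) :
    ((a :: l).toFinset.filter (G.Adj a)).card ≤ (a :: l).length / 2 := by
  rw [← card_color c hc h]
  apply Finset.card_le_card
  intro x hx
  rw [Finset.mem_filter] at hx ⊢
  exact ⟨hx.1, (hc a x hx.2).symm⟩

theorem exists_split (p : V → Prop) : ∀ R : List V, (∃ x ∈ R, p x) →
    ∃ C x D, R = C ++ x :: D ∧ p x ∧ ∀ y ∈ D, ¬ p y := by
  intro R
  induction R with
  | nil => rintro ⟨x, hx, _⟩; simp at hx
  | cons y R ih =>
    rintro ⟨x, hx, hpx⟩
    by_cases h : ∃ x ∈ R, p x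
    · obtain ⟨C, x', D, e, h1, h2⟩ := ih h
      exact ⟨y :: C, x', D, by rw [e]; rfl, h1, h2⟩
    · push Not at h
      rcases List.mem_cons.1 hx with rfl | hx
      · exact ⟨[], x, R, rfl, hpx, h⟩
      · exact absurd hpx (h x hx)

/-! ## Rich sets -/

/-- `C` is `m`-rich: from every vertex of `C` there starts a path inside `C` with at least `m`
vertices. -/
def Rich (G : SimpleGraph V) (C : Finset V) (m : ℕ) : Prop :=
  C.Nonempty ∧ ∀ u ∈ C, ∃ l : List V, IsP G l ∧ (∀ x ∈ l, x ∈ C) ∧ l.head? = some u ∧ m ≤ l.length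

/-- A cycle, given by a path whose ends are adjacent. -/
theorem rich_cycle {l : List V} {a b : V} (h : IsP G (a :: l)) (hb : (a :: l).getLast? = some b)
    (hab : G.Adj b a) : Rich G (a :: l).toFinset (a :: l).length := by
  refine ⟨⟨a, by simp⟩, ?_⟩
  intro u hu
  rw [List.mem_toFinset] at hu
  obtain ⟨C, D, e⟩ := List.append_of_mem hu
  rw [e] at h hb ⊢
  refine ⟨(u :: D) ++ C, ?_, ?_, by simp, by simp; omega⟩
  · apply h.right.append h.left
    · intro x hx hx'
      exact (List.nodup_append.1 h.2).2.2 x hx' x hx rfl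
    · intro x hx y hy
      have hx' : (C ++ u :: D).getLast? = some x := by
        rw [List.getLast?_append, hx]
        rfl
      have hy' : (C ++ u :: D).head? = some y := by
        rw [List.head?_append, hy]
        rfl
      rw [hb] at hx'
      rw [← e] at hy'
      simp only [List.head?_cons, Option.some.injEq] at hx' hy'
      rw [← hx', ← hy']
      exact hab
  · intro x hx
    rw [List.mem_toFinset]
    simp only [List.mem_append] at hx ⊢
    tauto

/-- If the head of a path has `d` neighbours on the path, there is a cycle of length at least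
`2 d`. -/
theorem rich_of_head [DecidableRel G.Adj] (c : V → Bool) (hc : ∀ u v, G.Adj u v → c u ≠ c v)
    {l : List V} {a : V} (h : IsP G (a :: l)) {d : ℕ} (hd0 : 1 ≤ d)
    (hd : d ≤ ((a :: l).toFinset.filter (G.Adj a)).card) :
    ∃ C ⊆ (a :: l).toFinset, C.card ≤ (a :: l).length ∧ Rich G C (2 * d) := by
  have hex : ∃ x ∈ (a :: l), G.Adj a x := by
    have : 0 < ((a :: l).toFinset.filter (G.Adj a)).card := by omega
    rw [Finset.card_pos] at this
    obtain ⟨x, hx⟩ := this
    rw [Finset.mem_filter, List.mem_toFinset] at hx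
    exact ⟨x, hx⟩
  obtain ⟨C, x, D, e, h1, h2⟩ := exists_split (G.Adj a) _ hex
  have hC : C ≠ [] := by
    rintro rfl
    simp only [List.nil_append, List.cons.injEq] at e
    exact G.ne_of_adj h1 e.1
  obtain ⟨a', C', rfl⟩ := List.exists_cons_of_ne_nil hC
  have ha' : a' = a := by
    simp only [List.cons_append, List.cons.injEq] at e
    exact e.1.symm
  subst ha'
  have e' : a' :: l = (a' :: (C' ++ [x])) ++ D := by
    rw [e]
    simp
  have hP : IsP G (a' :: (C' ++ [x])) := by
    rw [e'] at h
    exact h.left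
  have hnb : (a' :: l).toFinset.filter (G.Adj a') ⊆
      (a' :: (C' ++ [x])).toFinset.filter (G.Adj a') := by
    intro y hy
    rw [Finset.mem_filter, List.mem_toFinset] at hy ⊢
    refine ⟨?_, hy.2⟩
    have := hy.1
    rw [e', List.mem_append] at this
    rcases this with h3 | h3
    · exact h3
    · exact absurd hy.2 (h2 y h3)
  have hlen : d ≤ (a' :: (C' ++ [x])).length / 2 :=
    hd.trans ((Finset.card_le_card hnb).trans (card_nbr_le c hc hP))
  have hr := rich_cycle hP (b := x) (by simp [List.getLast?_cons]) h1.symm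
  refine ⟨(a' :: (C' ++ [x])).toFinset, ?_, ?_, hr.1, ?_⟩
  · intro y hy
    rw [List.mem_toFinset] at hy ⊢
    rw [e']
    exact List.mem_append_left _ hy
  · refine (List.toFinset_card_le _).trans ?_
    rw [e', List.length_append]
    omega
  · intro u hu
    obtain ⟨l', g1, g2, g3, g4⟩ := hr.2 u hu
    exact ⟨l', g1, g2, g3, by omega⟩

/-- Two disjoint rich sets in a connected graph. -/
theorem rich_combine (hG : G.Connected) {C₁ C₂ : Finset V} {m₁ m₂ : ℕ} (h₁ : Rich G C₁ m₁)
    (h₂ : Rich G C₂ m₂) (hd : Disjoint C₁ C₂) : ∃ l, IsP G l ∧ m₁ + m₂ ≤ l.length := by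
  obtain ⟨⟨a, b⟩, hab, hmin⟩ := Finset.exists_min_image (C₁ ×ˢ C₂) (fun p => G.dist p.1 p.2)
    (h₁.1.product h₂.1)
  rw [Finset.mem_product] at hab
  obtain ⟨ha, hb⟩ := hab
  simp only at ha hb
  obtain ⟨p, hp⟩ := hG.exists_walk_length_eq_dist a b
  have hpp : p.IsPath := p.isPath_of_length_eq_dist hp
  have hne : a ≠ b := by
    rintro rfl
    exact Finset.disjoint_left.1 hd ha hb
  obtain ⟨l₁, g1, g2, g3, g4⟩ := h₁.2 a ha
  obtain ⟨l₂, f1, f2, f3, f4⟩ := h₂.2 b hb
  -- the interior of the walk
  have hint : ∀ x ∈ p.support, (x ∈ C₁ → x = a) ∧ (x ∈ C₂ → x = b) := by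
    intro x hx
    have hlen : (p.takeUntil x hx).length + (p.dropUntil x hx).length = p.length := by
      rw [← SimpleGraph.Walk.length_append, SimpleGraph.Walk.take_spec]
    constructor
    · intro hxC
      by_contra hxa
      have h3 := hmin (x, b) (Finset.mem_product.2 ⟨hxC, hb⟩)
      simp only at h3
      have h4 : G.dist x b ≤ (p.dropUntil x hx).length := SimpleGraph.dist_le _
      have h5 : (p.takeUntil x hx).length ≠ 0 := by
        intro h6
        exact hxa (SimpleGraph.Walk.eq_of_length_eq_zero h6).symm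
      omega
    · intro hxC
      by_contra hxb
      have h3 := hmin (a, x) (Finset.mem_product.2 ⟨ha, hxC⟩)
      simp only at h3
      have h4 : G.dist a x ≤ (p.takeUntil x hx).length := SimpleGraph.dist_le _
      have h5 : (p.dropUntil x hx).length ≠ 0 := by
        intro h6
        exact hxb (SimpleGraph.Walk.eq_of_length_eq_zero h6)
      omega
  -- write the support as `a :: I ++ [b]`
  have hsup : IsP G p.support := ⟨p.isChain_adj_support, hpp.support_nodup⟩
  obtain ⟨I, hI⟩ : ∃ I, p.support = a :: (I ++ [b]) := by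
    have h1 : p.support = a :: p.support.tail := p.cons_tail_support.symm
    have h2 : p.support.tail ≠ [] := by
      intro h3
      rw [h3] at h1
      have h4 : b ∈ p.support := p.end_mem_support
      rw [h1] at h4
      simp only [List.mem_singleton] at h4
      exact hne h4.symm
    have h3 : p.support.tail.getLast h2 = b := by
      rw [List.getLast_tail]
      exact p.getLast_support
    refine ⟨p.support.tail.dropLast, ?_⟩
    conv_lhs => rw [h1]
    congr 1
    conv_lhs => rw [← List.dropLast_append_getLast h2]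
    rw [h3]
  rw [hI] at hsup hint
  obtain ⟨l₁', rfl⟩ : ∃ l', l₁ = a :: l' := by
    cases l₁ with
    | nil => simp at g3
    | cons y l' =>
      simp only [List.head?_cons, Option.some.injEq] at g3
      exact ⟨l', by rw [g3]⟩
  obtain ⟨l₂', rfl⟩ : ∃ l', l₂ = b :: l' := by
    cases l₂ with
    | nil => simp at f3
    | cons y l' =>
      simp only [List.head?_cons, Option.some.injEq] at f3
      exact ⟨l', by rw [f3]⟩
  have hsup' : IsP G ((a :: I) ++ [b]) := by simpa using hsup
  have hI1 : ∀ x ∈ I, x ∉ C₁ ∧ x ∉ C₂ := by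
    intro x hx
    have hmem : x ∈ a :: (I ++ [b]) := by simp [hx]
    have hnd := hsup.2
    refine ⟨fun h => ?_, fun h => ?_⟩
    · have := (hint x hmem).1 h
      subst this
      simp [hx] at hnd
    · have := (hint x hmem).2 h
      subst this
      have h7 := (List.nodup_append.1 (List.nodup_cons.1 hnd).2).2.2 x hx x (by simp)
      exact h7 rfl
  refine ⟨(a :: l₁').reverse ++ (I ++ (b :: l₂')), ?_, ?_⟩
  · apply g1.reverse.append
    · -- the second part
      have hI2 : IsP G I := by
        have := hsup'.left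
        exact IsP.right (l₁ := [a]) (by simpa using this)
      apply hI2.append f1
      · intro x hx hx'
        exact (hI1 x hx).2 (f2 x hx')
      · intro x hx y hy
        simp only [List.head?_cons, Option.mem_def, Option.some.injEq] at hy
        subst hy
        have h8 := (List.isChain_append.1 hsup'.1).2.2
        apply h8 x _ b (by simp)
        rw [List.getLast?_cons]
        simp only [Option.mem_def] at hx
        rw [hx]
        rfl
    · intro x hx hx'
      rw [List.mem_reverse] at hx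
      rw [List.mem_append] at hx'
      rcases hx' with hx' | hx'
      · exact (hI1 x hx').1 (g2 x hx)
      · exact Finset.disjoint_left.1 hd (g2 x hx) (f2 x hx')
    · intro x hx y hy
      rw [List.getLast?_reverse] at hx
      simp only [List.head?_cons, Option.mem_def, Option.some.injEq] at hx
      subst hx
      have h9 : (I ++ [b]).head? = some y := by
        cases I with
        | nil => simpa using hy
        | cons z I => simpa using hy
      exact (List.isChain_cons.1 hsup.1).1 y h9
  · simp only [List.length_append, List.length_reverse]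
    omega

/-! ## Flexible structures -/

/-- A flexible family of `2 m`-rich sets: apart from a fixed bounded set `Z` of vertices whose
colour is not `col`, any bounded set `Y` of vertices can be avoided. -/
def Flex (G : SimpleGraph V) (c : V → Bool) (M : ℕ) (col : Bool) (m : ℕ) : Prop :=
  ∃ Z : Finset V, Z.card ≤ M ∧ (∀ z ∈ Z, c z ≠ col) ∧
    ∀ Y : Finset V, Y.card ≤ M → Disjoint Y Z → ∃ C : Finset V, C.card ≤ M ∧ Disjoint C Y ∧
      Rich G C (2 * m)

theorem flex_combine (hG : G.Connected) (c : V → Bool) {M m₁ m₂ : ℕ} (h₁ : Flex G c M true m₁)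
    (h₂ : Flex G c M false m₂) : ∃ l, IsP G l ∧ 2 * m₁ + 2 * m₂ ≤ l.length := by
  obtain ⟨Z₁, a1, a2, a3⟩ := h₁
  obtain ⟨Z₂, b1, b2, b3⟩ := h₂
  have hd : Disjoint Z₂ Z₁ := by
    rw [Finset.disjoint_left]
    intro z hz hz'
    have e1 := a2 z hz'
    have e2 := b2 z hz
    cases h : c z <;> simp_all
  obtain ⟨C₁, c1, c2, c3⟩ := a3 Z₂ b1 hd
  obtain ⟨C₂, d1, d2, d3⟩ := b3 C₁ c1 c2
  exact rich_combine hG c3 d3 d2.symm

/-- A path through all hubs. -/
theorem hubpath : ∀ (n : ℕ) (Hs Zs : Finset V), Hs.card = n → Disjoint Hs Zs →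
    (∀ h ∈ Hs, ∀ z ∈ Zs, G.Adj h z) → Hs.card ≤ Zs.card + 1 → ∀ h ∈ Hs, ∃ l : List V,
      IsP G l ∧ (∀ x ∈ l, x ∈ Hs ∨ x ∈ Zs) ∧ l.head? = some h ∧
      (∃ g ∈ Hs, l.getLast? = some g) ∧ l.length + 1 = 2 * Hs.card := by
  intro n
  induction n with
  | zero =>
    intro Hs Zs hn _ _ _ h hh
    rw [Finset.card_eq_zero] at hn
    subst hn
    simp at hh
  | succ n ih =>
    intro Hs Zs hn hd hadj hcard h hh
    by_cases h0 : n = 0
    · subst h0
      refine ⟨[h], IsP.singleton h, ?_, rfl, ⟨h, hh, rfl⟩, ?_⟩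
      · intro x hx
        rw [List.mem_singleton] at hx
        subst hx
        exact Or.inl hh
      · rw [hn]
        rfl
    · have h1 : (Hs.erase h).card = n := by
        rw [Finset.card_erase_of_mem hh, hn]
        rfl
      obtain ⟨h', hh'⟩ : (Hs.erase h).Nonempty := by
        rw [← Finset.card_pos]
        omega
      obtain ⟨z, hz⟩ : Zs.Nonempty := by
        rw [← Finset.card_pos]
        omega
      have h2 : (Zs.erase z).card = Zs.card - 1 := Finset.card_erase_of_mem hz
      obtain ⟨l, l1, l2, l3, ⟨g, hg, l4⟩, l5⟩ := ih (Hs.erase h) (Zs.erase z) h1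
        (hd.mono (Finset.erase_subset _ _) (Finset.erase_subset _ _))
        (fun a ha b hb => hadj a (Finset.mem_of_mem_erase ha) b (Finset.mem_of_mem_erase hb))
        (by omega) h' hh'
      have hhz : h ≠ z := by
        rintro rfl
        exact Finset.disjoint_left.1 hd hh hz
      have hzl : z ∉ l := by
        intro hzl
        rcases l2 z hzl with h3 | h3
        · exact Finset.disjoint_left.1 hd (Finset.mem_of_mem_erase h3) hz
        · exact (Finset.mem_erase.1 h3).1 rfl
      have hhl : h ∉ l := by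
        intro hhl
        rcases l2 h hhl with h3 | h3
        · exact (Finset.mem_erase.1 h3).1 rfl
        · exact Finset.disjoint_left.1 hd hh (Finset.mem_of_mem_erase h3)
      refine ⟨h :: z :: l, ?_, ?_, rfl, ⟨g, Finset.mem_of_mem_erase hg, ?_⟩, ?_⟩
      · apply IsP.cons
        · apply IsP.cons l1 hzl
          intro y hy
          rw [l3] at hy
          simp only [Option.mem_def, Option.some.injEq] at hy
          subst hy
          exact (hadj _ (Finset.mem_of_mem_erase hh') z hz).symm
        · simp only [List.mem_cons, not_or]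
          exact ⟨hhz, hhl⟩
        · intro y hy
          simp only [List.head?_cons, Option.mem_def, Option.some.injEq] at hy
          subst hy
          exact hadj h hh z hz
      · intro x hx
        rw [List.mem_cons, List.mem_cons] at hx
        rcases hx with rfl | rfl | hx
        · exact Or.inl hh
        · exact Or.inr hz
        · rcases l2 x hx with h3 | h3
          · exact Or.inl (Finset.mem_of_mem_erase h3)
          · exact Or.inr (Finset.mem_of_mem_erase h3)
      · rw [List.getLast?_cons, List.getLast?_cons, l4]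
        rfl
      · simp only [List.length_cons]
        omega

/-- Pairwise disjoint sets. -/
def PD (𝓜 : Finset (Finset V)) : Prop := ∀ L ∈ 𝓜, ∀ L' ∈ 𝓜, L ≠ L' → Disjoint L L'

theorem PD.mono {𝓜 𝓝 : Finset (Finset V)} (h : PD 𝓜) (hs : 𝓝 ⊆ 𝓜) : PD 𝓝 :=
  fun L hL L' hL' hne => h L (hs hL) L' (hs hL') hne

theorem card_meet (𝓜 : Finset (Finset V)) (h : PD 𝓜) (Y : Finset V) :
    𝓜.card ≤ (𝓜.filter (fun L => Disjoint L Y)).card + Y.card := by
  have h1 : (𝓜.filter (fun L => ¬ Disjoint L Y)).card ≤ Y.card := by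
    have h2 : ∀ L ∈ 𝓜.filter (fun L => ¬ Disjoint L Y), ∃ y ∈ Y, y ∈ L := by
      intro L hL
      have := (Finset.mem_filter.1 hL).2
      rw [Finset.not_disjoint_iff] at this
      obtain ⟨y, hy1, hy2⟩ := this
      exact ⟨y, hy2, hy1⟩
    by_cases hne : (𝓜.filter (fun L => ¬ Disjoint L Y)) = ∅
    · rw [hne]
      simp
    · obtain ⟨L0, hL0⟩ := Finset.nonempty_iff_ne_empty.2 hne
      obtain ⟨y0, _, _⟩ := h2 L0 hL0
      have : Nonempty V := ⟨y0⟩
      choose! g hg1 hg2 using h2
      apply Finset.card_le_card_of_injOn g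
      · intro L hL
        exact hg1 L hL
      · intro L hL L' hL' he
        by_contra hn
        have h3 := h L (Finset.mem_filter.1 hL).1 L' (Finset.mem_filter.1 hL').1 hn
        apply Finset.disjoint_left.1 h3 (hg2 L hL)
        rw [he]
        exact hg2 L' hL'
  have h3 := Finset.card_filter_add_card_filter_not (s := 𝓜) (fun L => Disjoint L Y)
  omega

/-- From a hub: through all hubs and then along a whole path of a piece. -/
theorem hubtail {Hs : Finset V} (I : Finset (Finset V)) (hI : PD I)
    (hd : ∀ L ∈ I, Disjoint L Hs) (R : Finset V → List V) (a : Finset V → V)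
    (hR : ∀ L ∈ I, IsP G (R L)) (hRL : ∀ L ∈ I, ∀ x ∈ R L, x ∈ L)
    (ha : ∀ L ∈ I, (R L).head? = some (a L)) (hadj : ∀ L ∈ I, ∀ h ∈ Hs, G.Adj h (a L))
    (J : Finset (Finset V)) (hJ : J ⊆ I) (j : Finset V) (hj : j ∈ I) (hjJ : j ∉ J)
    (hcard : Hs.card ≤ J.card + 1) (h : V) (hh : h ∈ Hs) :
    ∃ l, IsP G l ∧ (∀ x ∈ l, x ∈ Hs ∨ ∃ L ∈ insert j J, x ∈ R L) ∧ l.head? = some h ∧
      l.length + 1 = 2 * Hs.card + (R j).length := by
  have haL : ∀ L ∈ I, a L ∈ R L := fun L hL => List.mem_of_head? (ha L hL)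
  have hcardJ : (J.image a).card = J.card := by
    apply Finset.card_image_of_injOn
    intro L hL L' hL' he
    by_contra hn
    have h3 := hI L (hJ hL) L' (hJ hL') hn
    apply Finset.disjoint_left.1 h3 (hRL L (hJ hL) _ (haL L (hJ hL)))
    rw [he]
    exact hRL L' (hJ hL') _ (haL L' (hJ hL'))
  obtain ⟨l, l1, l2, l3, ⟨g, hg, l4⟩, l5⟩ := hubpath (G := G) Hs.card Hs (J.image a) rfl
    (by
      rw [Finset.disjoint_left]
      intro x hx hx'
      obtain ⟨L, hL, rfl⟩ := Finset.mem_image.1 hx'
      exact Finset.disjoint_left.1 (hd L (hJ hL)) (hRL L (hJ hL) _ (haL L (hJ hL))) hx)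
    (by
      intro h hh z hz
      obtain ⟨L, hL, rfl⟩ := Finset.mem_image.1 hz
      exact hadj L (hJ hL) h hh)
    (by rw [hcardJ]; exact hcard) h hh
  refine ⟨l ++ R j, ?_, ?_, ?_, ?_⟩
  · apply l1.append (hR j hj)
    · intro x hx hx'
      rcases l2 x hx with h3 | h3
      · exact Finset.disjoint_left.1 (hd j hj) (hRL j hj x hx') h3
      · obtain ⟨L, hL, rfl⟩ := Finset.mem_image.1 h3
        have hne : L ≠ j := by
          rintro rfl
          exact hjJ hL
        exact Finset.disjoint_left.1 (hI L (hJ hL) j hj hne) (hRL L (hJ hL) _ (haL L (hJ hL)))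
          (hRL j hj _ hx')
    · intro x hx y hy
      rw [l4] at hx
      rw [ha j hj] at hy
      simp only [Option.mem_def, Option.some.injEq] at hx hy
      subst hx
      subst hy
      exact hadj j hj _ hg
  · intro x hx
    rw [List.mem_append] at hx
    rcases hx with hx | hx
    · rcases l2 x hx with h3 | h3
      · exact Or.inl h3
      · obtain ⟨L, hL, rfl⟩ := Finset.mem_image.1 h3
        exact Or.inr ⟨L, Finset.mem_insert_of_mem hL, haL L (hJ hL)⟩
    · exact Or.inr ⟨j, Finset.mem_insert_self _ _, hx⟩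
  · rw [List.head?_append, l3]
    rfl
  · rw [List.length_append]
    omega

/-- Hubs and tails are flexible. -/
theorem flex_hub (c : V → Bool) {M k m : ℕ} {col : Bool} {Hs : Finset V} (hHs : Hs.Nonempty)
    (hcol : ∀ h ∈ Hs, c h ≠ col) (𝓜 : Finset (Finset V)) (h𝓜 : PD 𝓜)
    (hd : ∀ L ∈ 𝓜, Disjoint L Hs) (R : Finset V → List V) (a : Finset V → V)
    (hR : ∀ L ∈ 𝓜, IsP G (R L)) (hRL : ∀ L ∈ 𝓜, ∀ x ∈ R L, x ∈ L)
    (hRk : ∀ L ∈ 𝓜, (R L).length ≤ k)
    (ha : ∀ L ∈ 𝓜, (R L).head? = some (a L)) (hadj : ∀ L ∈ 𝓜, ∀ h ∈ Hs, G.Adj h (a L))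
    (hm : ∀ L ∈ 𝓜, 2 * m + 1 ≤ 2 * Hs.card + (R L).length)
    (hM : Hs.card + (Hs.card + 2) * k ≤ M) (hcard : M + Hs.card + 2 ≤ 𝓜.card) :
    Flex G c M col m := by
  refine ⟨Hs, by omega, hcol, ?_⟩
  intro Y hY hYH
  have h1 := card_meet 𝓜 h𝓜 Y
  obtain ⟨I, hI1, hI2⟩ := Finset.exists_subset_card_eq
    (s := 𝓜.filter (fun L => Disjoint L Y)) (n := Hs.card + 2) (by omega)
  have hI3 : I ⊆ 𝓜 := hI1.trans (Finset.filter_subset _ _)
  have hIpd : PD I := h𝓜.mono hI3
  have hmem : ∀ x, x ∈ Hs ∪ I.biUnion (fun L => (R L).toFinset) ↔ (x ∈ Hs ∨ ∃ L ∈ I, x ∈ R L) := by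
    intro x
    rw [Finset.mem_union, Finset.mem_biUnion]
    simp only [List.mem_toFinset]
  refine ⟨Hs ∪ I.biUnion (fun L => (R L).toFinset), ?_, ?_, ?_, ?_⟩
  · refine (Finset.card_union_le _ _).trans ?_
    have h2 : (I.biUnion (fun L => (R L).toFinset)).card ≤ I.card * k := by
      apply Finset.card_biUnion_le_card_mul
      intro L hL
      exact (List.toFinset_card_le _).trans (hRk L (hI3 hL))
    rw [hI2] at h2
    omega
  · rw [Finset.disjoint_left]
    intro x hx hxY
    rcases (hmem x).1 hx with h2 | ⟨L, hL, h2⟩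
    · exact Finset.disjoint_left.1 hYH hxY h2
    · exact Finset.disjoint_left.1 (Finset.mem_filter.1 (hI1 hL)).2 (hRL L (hI3 hL) x h2) hxY
  · obtain ⟨h, hh⟩ := hHs
    exact ⟨h, (hmem h).2 (Or.inl hh)⟩
  · intro u hu
    rcases (hmem u).1 hu with h2 | ⟨i, hi, h2⟩
    · -- starting from a hub
      obtain ⟨j, hj⟩ : I.Nonempty := by
        rw [← Finset.card_pos]
        omega
      have hcj : (I.erase j).card = I.card - 1 := Finset.card_erase_of_mem hj
      obtain ⟨l, l1, l2, l3, l4⟩ := hubtail I hIpd (fun L hL => hd L (hI3 hL)) R a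
        (fun L hL => hR L (hI3 hL)) (fun L hL => hRL L (hI3 hL)) (fun L hL => ha L (hI3 hL))
        (fun L hL => hadj L (hI3 hL)) (I.erase j) (Finset.erase_subset _ _) j hj
        (Finset.notMem_erase _ _) (by omega) u h2
      refine ⟨l, l1, ?_, l3, ?_⟩
      · intro x hx
        rw [hmem]
        rcases l2 x hx with h3 | ⟨L, hL, h3⟩
        · exact Or.inl h3
        · rw [Finset.insert_erase hj] at hL
          exact Or.inr ⟨L, hL, h3⟩
      · have := hm j (hI3 hj)
        omega
    · -- starting from a piece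
      obtain ⟨h, hh⟩ := hHs
      have hci : (I.erase i).card = I.card - 1 := Finset.card_erase_of_mem hi
      obtain ⟨j, hj⟩ : (I.erase i).Nonempty := by
        rw [← Finset.card_pos]
        omega
      have hcj : ((I.erase i).erase j).card = (I.erase i).card - 1 := Finset.card_erase_of_mem hj
      have hjI := Finset.mem_of_mem_erase hj
      obtain ⟨l, l1, l2, l3, l4⟩ := hubtail I hIpd (fun L hL => hd L (hI3 hL)) R a
        (fun L hL => hR L (hI3 hL)) (fun L hL => hRL L (hI3 hL)) (fun L hL => ha L (hI3 hL))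
        (fun L hL => hadj L (hI3 hL)) ((I.erase i).erase j)
        ((Finset.erase_subset _ _).trans (Finset.erase_subset _ _)) j hjI
        (Finset.notMem_erase _ _) (by omega) h hh
      rw [Finset.insert_erase hj] at l2
      obtain ⟨pre, post, e⟩ := List.append_of_mem h2
      have hpre : IsP G (pre ++ [u]) := by
        have := hR i (hI3 hi)
        rw [e] at this
        have h5 : pre ++ u :: post = (pre ++ [u]) ++ post := by simp
        rw [h5] at this
        exact this.left
      have hsub : ∀ x ∈ pre ++ [u], x ∈ R i := by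
        intro x hx
        rw [e]
        simp only [List.mem_append, List.mem_cons] at hx ⊢
        tauto
      refine ⟨(pre ++ [u]).reverse ++ l, ?_, ?_, ?_, ?_⟩
      · apply hpre.reverse.append l1
        · intro x hx hx'
          rw [List.mem_reverse] at hx
          have hxi := hRL i (hI3 hi) x (hsub x hx)
          rcases l2 x hx' with h3 | ⟨L, hL, h3⟩
          · exact Finset.disjoint_left.1 (hd i (hI3 hi)) hxi h3
          · have hLI := Finset.mem_of_mem_erase hL
            exact Finset.disjoint_left.1 (hIpd L hLI i hi (Finset.mem_erase.1 hL).1)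
              (hRL L (hI3 hLI) x h3) hxi
        · intro x hx y hy
          rw [List.getLast?_reverse] at hx
          rw [l3] at hy
          simp only [Option.mem_def, Option.some.injEq] at hy
          subst hy
          have h6 : (R i).head? = some x := by
            rw [e]
            cases pre with
            | nil => simpa using hx
            | cons z pre => simpa using hx
          rw [ha i (hI3 hi)] at h6
          simp only [Option.some.injEq] at h6
          rw [← h6]
          exact (hadj i (hI3 hi) _ hh).symm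
      · intro x hx
        rw [hmem]
        rw [List.mem_append, List.mem_reverse] at hx
        rcases hx with hx | hx
        · exact Or.inr ⟨i, hi, hsub x hx⟩
        · rcases l2 x hx with h3 | ⟨L, hL, h3⟩
          · exact Or.inl h3
          · exact Or.inr ⟨L, Finset.mem_of_mem_erase hL, h3⟩
      · simp
      · rw [List.length_append]
        have := hm j (hI3 hjI)
        omega

/-- The long path in the case of ends of different colours. -/
theorem long_even {Hs Ks : Finset V} (hHs : Hs.Nonempty) (hKs : Ks.Nonempty)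
    (hHK : Disjoint Hs Ks) (𝓜 : Finset (Finset V)) (h𝓜 : PD 𝓜)
    (hdH : ∀ L ∈ 𝓜, Disjoint L Hs) (hdK : ∀ L ∈ 𝓜, Disjoint L Ks)
    (R : Finset V → List V) (a b : Finset V → V)
    (hR : ∀ L ∈ 𝓜, IsP G (R L)) (hRL : ∀ L ∈ 𝓜, ∀ x ∈ R L, x ∈ L)
    (ha : ∀ L ∈ 𝓜, (R L).head? = some (a L)) (hb : ∀ L ∈ 𝓜, (R L).getLast? = some (b L))
    (hadj : ∀ L ∈ 𝓜, ∀ h ∈ Hs, G.Adj h (a L)) (hbdj : ∀ L ∈ 𝓜, ∀ h ∈ Ks, G.Adj h (b L))
    (hcard : Hs.card + Ks.card + 2 ≤ 𝓜.card) {m : ℕ}
    (hm : ∀ L ∈ 𝓜, ∀ L' ∈ 𝓜, m + 2 ≤ 2 * Hs.card + (R L).length + (2 * Ks.card + (R L').length)) :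
    ∃ l, IsP G l ∧ m ≤ l.length := by
  obtain ⟨I, hI1, hI2⟩ := Finset.exists_subset_card_eq (s := 𝓜) (n := Hs.card + 1) (by omega)
  have hc1 : (𝓜 \ I).card = 𝓜.card - I.card := Finset.card_sdiff_of_subset hI1
  have hI' : 𝓜 \ I ⊆ 𝓜 := Finset.sdiff_subset
  have haL : ∀ L ∈ 𝓜, a L ∈ R L := fun L hL => List.mem_of_head? (ha L hL)
  have hbL : ∀ L ∈ 𝓜, b L ∈ R L := fun L hL => List.mem_of_getLast? (hb L hL)
  obtain ⟨j, hj⟩ : I.Nonempty := by
    rw [← Finset.card_pos]
    omega
  have hcj : (I.erase j).card = I.card - 1 := Finset.card_erase_of_mem hj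
  -- first part: hubs `Hs` and a path
  obtain ⟨h, hh⟩ := hHs
  obtain ⟨l, l1, l2, l3, l4⟩ := hubtail I (h𝓜.mono hI1) (fun L hL => hdH L (hI1 hL)) R a
    (fun L hL => hR L (hI1 hL)) (fun L hL => hRL L (hI1 hL)) (fun L hL => ha L (hI1 hL))
    (fun L hL => hadj L (hI1 hL)) (I.erase j) (Finset.erase_subset _ _) j hj
    (Finset.notMem_erase _ _) (by omega) h hh
  rw [Finset.insert_erase hj] at l2
  -- second part: hubs `Ks`, starting with a path which ends at a hub
  obtain ⟨i, hi⟩ : (𝓜 \ I).Nonempty := by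
    rw [← Finset.card_pos]
    omega
  have hi𝓜 := hI' hi
  have hci : ((𝓜 \ I).erase i).card = (𝓜 \ I).card - 1 := Finset.card_erase_of_mem hi
  have hsub2 : (𝓜 \ I).erase i ⊆ 𝓜 := (Finset.erase_subset _ _).trans hI'
  have hcardJ : (((𝓜 \ I).erase i).image b).card = ((𝓜 \ I).erase i).card := by
    apply Finset.card_image_of_injOn
    intro L hL L' hL' he
    by_contra hn
    have h3 := h𝓜 L (hsub2 hL) L' (hsub2 hL') hn
    apply Finset.disjoint_left.1 h3 (hRL L (hsub2 hL) _ (hbL L (hsub2 hL)))
    rw [he]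
    exact hRL L' (hsub2 hL') _ (hbL L' (hsub2 hL'))
  obtain ⟨g, hg⟩ := hKs
  obtain ⟨r, r1, r2, r3, -, r5⟩ := hubpath (G := G) Ks.card Ks (((𝓜 \ I).erase i).image b) rfl
    (by
      rw [Finset.disjoint_left]
      intro x hx hx'
      obtain ⟨L, hL, rfl⟩ := Finset.mem_image.1 hx'
      exact Finset.disjoint_left.1 (hdK L (hsub2 hL)) (hRL L (hsub2 hL) _ (hbL L (hsub2 hL))) hx)
    (by
      intro h hh z hz
      obtain ⟨L, hL, rfl⟩ := Finset.mem_image.1 hz
      exact hbdj L (hsub2 hL) h hh)
    (by rw [hcardJ]; omega) g hg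
  -- the pieces used in the second part are different from those used in the first part
  have hdiff : ∀ L ∈ 𝓜 \ I, ∀ L' ∈ I, L ≠ L' := by
    intro L hL L' hL' he
    subst he
    exact (Finset.mem_sdiff.1 hL).2 hL'
  -- the list `l.reverse ++ R i ++ r`
  have hRi := hR i hi𝓜
  have hir : IsP G (R i ++ r) := by
    apply hRi.append r1
    · intro x hx hx'
      rcases r2 x hx' with h3 | h3
      · exact Finset.disjoint_left.1 (hdK i hi𝓜) (hRL i hi𝓜 x hx) h3
      · obtain ⟨L, hL, rfl⟩ := Finset.mem_image.1 h3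
        exact Finset.disjoint_left.1 (h𝓜 L (hsub2 hL) i hi𝓜 (Finset.mem_erase.1 hL).1)
          (hRL L (hsub2 hL) _ (hbL L (hsub2 hL))) (hRL i hi𝓜 _ hx)
    · intro x hx y hy
      rw [hb i hi𝓜] at hx
      rw [r3] at hy
      simp only [Option.mem_def, Option.some.injEq] at hx hy
      subst hx
      subst hy
      exact (hbdj i hi𝓜 _ hg).symm
  refine ⟨l.reverse ++ (R i ++ r), ?_, ?_⟩
  · apply l1.reverse.append hir
    · intro x hx hx'
      rw [List.mem_reverse] at hx
      rw [List.mem_append] at hx'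
      rcases l2 x hx with h3 | ⟨L, hL, h3⟩
      · rcases hx' with h4 | h4
        · exact Finset.disjoint_left.1 (hdH i hi𝓜) (hRL i hi𝓜 x h4) h3
        · rcases r2 x h4 with h5 | h5
          · exact Finset.disjoint_left.1 hHK h3 h5
          · obtain ⟨L', hL', rfl⟩ := Finset.mem_image.1 h5
            exact Finset.disjoint_left.1 (hdH L' (hsub2 hL'))
              (hRL L' (hsub2 hL') _ (hbL L' (hsub2 hL'))) h3
      · rcases hx' with h4 | h4
        · exact Finset.disjoint_left.1 (h𝓜 i hi𝓜 L (hI1 hL) (hdiff i hi L hL))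
            (hRL i hi𝓜 x h4) (hRL L (hI1 hL) x h3)
        · rcases r2 x h4 with h5 | h5
          · exact Finset.disjoint_left.1 (hdK L (hI1 hL)) (hRL L (hI1 hL) x h3) h5
          · obtain ⟨L', hL', rfl⟩ := Finset.mem_image.1 h5
            exact Finset.disjoint_left.1 (h𝓜 L' (hsub2 hL') L (hI1 hL)
              (hdiff L' (Finset.mem_of_mem_erase hL') L hL))
              (hRL L' (hsub2 hL') _ (hbL L' (hsub2 hL'))) (hRL L (hI1 hL) _ h3)
    · intro x hx y hy
      rw [List.getLast?_reverse, l3] at hx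
      rw [List.head?_append, ha i hi𝓜] at hy
      simp only [Option.mem_def, Option.some.injEq, Option.some_or] at hx hy
      subst hx
      subst hy
      exact hadj i hi𝓜 _ hh
  · simp only [List.length_append, List.length_reverse]
    have h1 := hm j (hI1 hj) i hi𝓜
    omega

/-- The parity of the length of a path with ends of the same colour. -/
theorem parity (c : V → Bool) (hc : ∀ u v, G.Adj u v → c u ≠ c v) :
    ∀ (l : List V) (a b : V), (a :: l).IsChain G.Adj → (a :: l).getLast? = some b →
      (c a = c b ↔ (a :: l).length % 2 = 1) := by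
  intro l
  induction l with
  | nil =>
    intro a b _ h
    simp only [List.getLast?_singleton, Option.some.injEq] at h
    subst h
    simp
  | cons x l ih =>
    intro a b h hb
    rw [List.isChain_cons_cons] at h
    have h1 := ih x b h.2 (by rw [← hb, List.getLast?_cons_cons])
    have h2 := hc a x h.1
    have h3 : (c a = c b) ↔ ¬ (c x = c b) := by
      cases ha : c a <;> cases hx : c x <;> cases hb' : c b <;> simp_all
    rw [h3, h1]
    simp only [List.length_cons]
    omega

theorem exists_longest (P : List V → Prop) (k : ℕ) (hb : ∀ l, P l → l.length < k) (l₀ : List V)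
    (h₀ : P l₀) : ∃ l, P l ∧ ∀ l', P l' → l'.length ≤ l.length := by
  classical
  have h1 := Nat.findGreatest_spec (P := fun m => ∃ l, P l ∧ l.length = m) (n := k)
    (hb l₀ h₀).le ⟨l₀, h₀, rfl⟩
  obtain ⟨l, hl, he⟩ := h1
  refine ⟨l, hl, ?_⟩
  intro l' hl'
  rw [he]
  exact Nat.le_findGreatest (hb l' hl').le ⟨l', hl', rfl⟩

/-- The pieces: disjoint nonempty subsets of `H \ Z` without edges leaving to `H \ Z`. -/
def Pieces (G : SimpleGraph V) (H Z : Finset V) (𝓛 : Finset (Finset V)) : Prop :=
  PD 𝓛 ∧ ∀ L ∈ 𝓛, L.Nonempty ∧ L ⊆ H ∧ Disjoint L Z ∧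
    ∀ u ∈ L, ∀ w ∈ H, G.Adj u w → w ∈ L ∨ w ∈ Z

theorem bool_three (α β x : Bool) (h : α ≠ β) (h1 : x ≠ α) (h2 : x ≠ β) : False := by
  revert α β x
  decide

theorem bool_sum (f : Bool → ℕ) (α β : Bool) (h : α ≠ β) : f α + f β = f true + f false := by
  cases α <;> cases β
  · exact absurd rfl h
  · exact add_comm _ _
  · rfl
  · exact absurd rfl h

/-- The key lemma. -/
theorem key [DecidableRel G.Adj] (c : V → Bool) (hc : ∀ u v, G.Adj u v → c u ≠ c v)
    (f : Bool → ℕ) (hf : ∀ b, 1 ≤ f b) (H Z : Finset V) (k M : ℕ)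
    (hk : ∀ l, IsP G l → l.length < k) (hZ : Z.card ≤ k) (hM : k + (k + 2) * k ≤ M)
    (𝓛 : Finset (Finset V)) (h𝓛 : Pieces G H Z 𝓛)
    (hdeg : ∀ v ∈ H, f (c v) ≤ (H.filter (G.Adj v)).card)
    (hcard : 4 * 2 ^ k * 2 ^ k * (M + 2 * k + 2) ≤ 𝓛.card) :
    Flex G c M true (f true) ∨ Flex G c M false (f false) ∨
      ∃ l, IsP G l ∧ 2 * (f true + f false) ≤ l.length + 2 := by
  have hpos : 0 < 𝓛.card := lt_of_lt_of_le (by positivity) hcard
  obtain ⟨L0, hL0⟩ := Finset.card_pos.1 hpos
  have hV : Nonempty V := by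
    obtain ⟨x, _⟩ := (h𝓛.2 L0 hL0).1
    exact ⟨x⟩
  -- choose a longest path in each piece
  have hex : ∀ L ∈ 𝓛, ∃ R : List V, ∃ a b : V, IsP G R ∧ (∀ x ∈ R, x ∈ L) ∧ R.head? = some a ∧
      R.getLast? = some b ∧ (∀ w ∈ L, G.Adj a w → w ∈ R) ∧ (∀ w ∈ L, G.Adj b w → w ∈ R) := by
    intro L hL
    obtain ⟨x, hx⟩ := (h𝓛.2 L hL).1
    obtain ⟨R, ⟨h1, h2⟩, h3⟩ := exists_longest (fun l => IsP G l ∧ ∀ x ∈ l, x ∈ L) k
      (fun l hl => hk l hl.1) [x] ⟨IsP.singleton x, by
        intro y hy
        rw [List.mem_singleton] at hy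
        rw [hy]
        exact hx⟩
    have hlen : 1 ≤ R.length := by
      have := h3 [x] ⟨IsP.singleton x, by
        intro y hy
        rw [List.mem_singleton] at hy
        rw [hy]
        exact hx⟩
      simpa using this
    have hne : R ≠ [] := by
      rintro rfl
      simp at hlen
    refine ⟨R, R.head hne, R.getLast hne, h1, h2, List.head?_eq_some_head hne,
      List.getLast?_eq_some_getLast hne, ?_, ?_⟩
    · intro w hw hadj
      by_contra hwR
      have h4 := h3 (w :: R) ⟨h1.cons hwR (by
        intro y hy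
        rw [List.head?_eq_some_head hne] at hy
        simp only [Option.mem_def, Option.some.injEq] at hy
        rw [← hy]
        exact hadj.symm), by
        intro y hy
        rcases List.mem_cons.1 hy with rfl | hy
        · exact hw
        · exact h2 y hy⟩
      simp at h4
    · intro w hw hadj
      by_contra hwR
      have h4 := h3 (w :: R.reverse) ⟨h1.reverse.cons (by rwa [List.mem_reverse]) (by
        intro y hy
        rw [List.head?_reverse, List.getLast?_eq_some_getLast hne] at hy
        simp only [Option.mem_def, Option.some.injEq] at hy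
        rw [← hy]
        exact hadj.symm), by
        intro y hy
        rcases List.mem_cons.1 hy with rfl | hy
        · exact hw
        · exact h2 y (List.mem_reverse.1 hy)⟩
      simp at h4
  choose! R a b hR hRL ha hb hna hnb using hex
  -- neighbours of the ends
  have haR : ∀ L ∈ 𝓛, ∃ l, R L = a L :: l := by
    intro L hL
    have := ha L hL
    cases h : R L with
    | nil => rw [h] at this; simp at this
    | cons y l =>
      rw [h] at this
      simp only [List.head?_cons, Option.some.injEq] at this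
      exact ⟨l, by rw [this]⟩
  have hbR : ∀ L ∈ 𝓛, ∃ l, (R L).reverse = b L :: l := by
    intro L hL
    have := hb L hL
    rw [← List.head?_reverse] at this
    cases h : (R L).reverse with
    | nil => rw [h] at this; simp at this
    | cons y l =>
      rw [h] at this
      simp only [List.head?_cons, Option.some.injEq] at this
      exact ⟨l, by rw [this]⟩
  have haH : ∀ L ∈ 𝓛, a L ∈ H := fun L hL =>
    (h𝓛.2 L hL).2.1 (hRL L hL _ (List.mem_of_head? (ha L hL)))
  have hbH : ∀ L ∈ 𝓛, b L ∈ H := fun L hL =>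
    (h𝓛.2 L hL).2.1 (hRL L hL _ (List.mem_of_getLast? (hb L hL)))
  have hna' : ∀ L ∈ 𝓛, f (c (a L)) ≤ ((R L).toFinset.filter (G.Adj (a L))).card +
      (Z.filter (G.Adj (a L))).card := by
    intro L hL
    refine (hdeg _ (haH L hL)).trans ((Finset.card_le_card ?_).trans (Finset.card_union_le _ _))
    intro w hw
    rw [Finset.mem_filter] at hw
    rw [Finset.mem_union, Finset.mem_filter, Finset.mem_filter, List.mem_toFinset]
    rcases (h𝓛.2 L hL).2.2.2 (a L) (hRL L hL _ (List.mem_of_head? (ha L hL))) w hw.1 hw.2 with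
      h1 | h1
    · exact Or.inl ⟨hna L hL w h1 hw.2, hw.2⟩
    · exact Or.inr ⟨h1, hw.2⟩
  have hnb' : ∀ L ∈ 𝓛, f (c (b L)) ≤ ((R L).toFinset.filter (G.Adj (b L))).card +
      (Z.filter (G.Adj (b L))).card := by
    intro L hL
    refine (hdeg _ (hbH L hL)).trans ((Finset.card_le_card ?_).trans (Finset.card_union_le _ _))
    intro w hw
    rw [Finset.mem_filter] at hw
    rw [Finset.mem_union, Finset.mem_filter, Finset.mem_filter, List.mem_toFinset]
    rcases (h𝓛.2 L hL).2.2.2 (b L) (hRL L hL _ (List.mem_of_getLast? (hb L hL))) w hw.1 hw.2 with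
      h1 | h1
    · exact Or.inl ⟨hnb L hL w h1 hw.2, hw.2⟩
    · exact Or.inr ⟨h1, hw.2⟩
  have hla : ∀ L ∈ 𝓛, ((R L).toFinset.filter (G.Adj (a L))).card ≤ (R L).length / 2 := by
    intro L hL
    obtain ⟨l, hl⟩ := haR L hL
    have h1 := hR L hL
    rw [hl] at h1 ⊢
    exact card_nbr_le c hc h1
  have hlb : ∀ L ∈ 𝓛, ((R L).toFinset.filter (G.Adj (b L))).card ≤ (R L).length / 2 := by
    intro L hL
    obtain ⟨l, hl⟩ := hbR L hL
    have h1 := (hR L hL).reverse
    rw [← List.toFinset_reverse, ← List.length_reverse (as := R L), hl]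
    rw [hl] at h1
    exact card_nbr_le c hc h1
  -- pigeonhole
  obtain ⟨y, hy, hcy⟩ := Finset.exists_le_card_fiber_of_mul_le_card_of_maps_to
    (s := 𝓛) (t := (Finset.univ : Finset (Bool × Bool)) ×ˢ (Z.powerset ×ˢ Z.powerset))
    (f := fun L => ((c (a L), c (b L)), (Z.filter (G.Adj (a L)), Z.filter (G.Adj (b L)))))
    (n := M + 2 * k + 2)
    (by
      intro L hL
      simp only [Finset.mem_product, Finset.mem_univ, Finset.mem_powerset, true_and]
      exact ⟨Finset.filter_subset _ _, Finset.filter_subset _ _⟩)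
    (by
      refine ⟨((true, true), (∅, ∅)), ?_⟩
      simp)
    (by
      rw [Finset.card_product, Finset.card_product, Finset.card_powerset]
      refine le_trans ?_ hcard
      have h1 : (2 : ℕ) ^ Z.card ≤ 2 ^ k := Nat.pow_le_pow_right (by norm_num) hZ
      have h2 : (Finset.univ : Finset (Bool × Bool)).card = 4 := rfl
      rw [h2]
      have h3 : 4 * (2 ^ Z.card * 2 ^ Z.card) ≤ 4 * 2 ^ k * 2 ^ k := by
        rw [mul_assoc]
        exact Nat.mul_le_mul_left _ (Nat.mul_le_mul h1 h1)
      exact Nat.mul_le_mul_right _ h3)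
  obtain ⟨⟨α, β⟩, ⟨Hs, Ks⟩⟩ := y
  set 𝓜 := 𝓛.filter (fun L => ((c (a L), c (b L)), (Z.filter (G.Adj (a L)),
    Z.filter (G.Adj (b L)))) = ((α, β), (Hs, Ks))) with h𝓜def
  have h𝓜 : ∀ L ∈ 𝓜, L ∈ 𝓛 ∧ c (a L) = α ∧ c (b L) = β ∧ Z.filter (G.Adj (a L)) = Hs ∧
      Z.filter (G.Adj (b L)) = Ks := by
    intro L hL
    rw [h𝓜def, Finset.mem_filter] at hL
    simp only [Prod.mk.injEq] at hL
    tauto
  have hsub : 𝓜 ⊆ 𝓛 := fun L hL => (h𝓜 L hL).1
  have hpd : PD 𝓜 := h𝓛.1.mono hsub
  obtain ⟨L1, hL1⟩ : 𝓜.Nonempty := by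
    rw [← Finset.card_pos]
    omega
  have hHsZ : Hs ⊆ Z := by
    rw [← (h𝓜 L1 hL1).2.2.2.1]
    exact Finset.filter_subset _ _
  have hKsZ : Ks ⊆ Z := by
    rw [← (h𝓜 L1 hL1).2.2.2.2]
    exact Finset.filter_subset _ _
  have hHsk : Hs.card ≤ k := (Finset.card_le_card hHsZ).trans hZ
  have hKsk : Ks.card ≤ k := (Finset.card_le_card hKsZ).trans hZ
  have hHsc : ∀ h ∈ Hs, c h ≠ α := by
    intro h hh
    obtain ⟨g1, g2, g3, g4, g5⟩ := h𝓜 L1 hL1
    rw [← g4, Finset.mem_filter] at hh
    rw [← g2]
    exact (hc _ _ hh.2).symm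
  have hKsc : ∀ h ∈ Ks, c h ≠ β := by
    intro h hh
    obtain ⟨g1, g2, g3, g4, g5⟩ := h𝓜 L1 hL1
    rw [← g5, Finset.mem_filter] at hh
    rw [← g3]
    exact (hc _ _ hh.2).symm
  have hadj : ∀ L ∈ 𝓜, ∀ h ∈ Hs, G.Adj h (a L) := by
    intro L hL h hh
    obtain ⟨g1, g2, g3, g4, g5⟩ := h𝓜 L hL
    rw [← g4, Finset.mem_filter] at hh
    exact hh.2.symm
  have hbdj : ∀ L ∈ 𝓜, ∀ h ∈ Ks, G.Adj h (b L) := by
    intro L hL h hh
    obtain ⟨g1, g2, g3, g4, g5⟩ := h𝓜 L hL
    rw [← g5, Finset.mem_filter] at hh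
    exact hh.2.symm
  have hRk : ∀ L ∈ 𝓛, (R L).length ≤ k := fun L hL => (hk _ (hR L hL)).le
  -- the flexible case without hubs
  have free : ∀ (γ : Bool) (C : Finset V → Finset V), (∀ L ∈ 𝓜, C L ⊆ L ∧ (C L).card ≤ M ∧
      Rich G (C L) (2 * f γ)) → Flex G c M γ (f γ) := by
    intro γ C hC
    refine ⟨∅, by simp, by simp, ?_⟩
    intro Y hY _
    have h1 := card_meet 𝓜 hpd Y
    obtain ⟨L, hL⟩ : (𝓜.filter (fun L => Disjoint L Y)).Nonempty := by
      rw [← Finset.card_pos]
      omega
    rw [Finset.mem_filter] at hL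
    obtain ⟨h2, h3, h4⟩ := hC L hL.1
    exact ⟨C L, h3, hL.2.mono_left h2, h4⟩
  have fin : ∀ γ : Bool, Flex G c M γ (f γ) → Flex G c M true (f true) ∨
      Flex G c M false (f false) ∨ ∃ l, IsP G l ∧ 2 * (f true + f false) ≤ l.length + 2 := by
    intro γ h
    cases γ
    · exact Or.inr (Or.inl h)
    · exact Or.inl h
  have hRsub : ∀ L ∈ 𝓛, (R L).toFinset ⊆ L := by
    intro L hL x hx
    exact hRL L hL x (List.mem_toFinset.1 hx)
  by_cases hHs : Hs.Nonempty
  swap
  · -- no hub at the head
    rw [Finset.not_nonempty_iff_eq_empty] at hHs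
    have hC : ∀ L ∈ 𝓜, ∃ C ⊆ (R L).toFinset, C.card ≤ (R L).length ∧ Rich G C (2 * f α) := by
      intro L hL
      obtain ⟨g1, g2, g3, g4, g5⟩ := h𝓜 L hL
      have h1 := hna' L g1
      rw [g4, hHs, Finset.card_empty, g2] at h1
      obtain ⟨l, hl⟩ := haR L g1
      have h2 := hR L g1
      rw [hl] at h1 h2 ⊢
      exact rich_of_head c hc h2 (hf α) h1
    choose! C hC1 hC2 hC3 using hC
    refine fin α (free α C ?_)
    intro L hL
    refine ⟨(hC1 L hL).trans (hRsub L (hsub hL)), ?_, hC3 L hL⟩
    have := hC2 L hL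
    have := hRk L (hsub hL)
    nlinarith
  by_cases hKs : Ks.Nonempty
  swap
  · rw [Finset.not_nonempty_iff_eq_empty] at hKs
    have hC : ∀ L ∈ 𝓜, ∃ C ⊆ (R L).toFinset, C.card ≤ (R L).length ∧ Rich G C (2 * f β) := by
      intro L hL
      obtain ⟨g1, g2, g3, g4, g5⟩ := h𝓜 L hL
      have h1 := hnb' L g1
      rw [g5, hKs, Finset.card_empty, g3] at h1
      obtain ⟨l, hl⟩ := hbR L g1
      have h2 := (hR L g1).reverse
      rw [← List.toFinset_reverse, ← List.length_reverse (as := R L), hl]
      rw [← List.toFinset_reverse, hl] at h1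
      rw [hl] at h2
      exact rich_of_head c hc h2 (hf β) h1
    choose! C hC1 hC2 hC3 using hC
    refine fin β (free β C ?_)
    intro L hL
    refine ⟨(hC1 L hL).trans (hRsub L (hsub hL)), ?_, hC3 L hL⟩
    have := hC2 L hL
    have := hRk L (hsub hL)
    nlinarith
  have hdH : ∀ L ∈ 𝓜, Disjoint L Hs := fun L hL =>
    (h𝓛.2 L (hsub hL)).2.2.1.mono_right hHsZ
  have hdK : ∀ L ∈ 𝓜, Disjoint L Ks := fun L hL =>
    (h𝓛.2 L (hsub hL)).2.2.1.mono_right hKsZ
  have hfa : ∀ L ∈ 𝓜, f α ≤ (R L).length / 2 + Hs.card := by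
    intro L hL
    obtain ⟨g1, g2, g3, g4, g5⟩ := h𝓜 L hL
    have h1 := hna' L g1
    have h2 := hla L g1
    rw [g4, g2] at h1
    omega
  have hfb : ∀ L ∈ 𝓜, f β ≤ (R L).length / 2 + Ks.card := by
    intro L hL
    obtain ⟨g1, g2, g3, g4, g5⟩ := h𝓜 L hL
    have h1 := hnb' L g1
    have h2 := hlb L g1
    rw [g5, g3] at h1
    omega
  by_cases hαβ : α = β
  · -- ends of the same colour
    refine fin α ?_
    apply flex_hub (k := k) c hHs hHsc 𝓜 hpd hdH R a (fun L hL => hR L (hsub hL))
      (fun L hL => hRL L (hsub hL)) (fun L hL => hRk L (hsub hL)) (fun L hL => ha L (hsub hL))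
      hadj
    · intro L hL
      obtain ⟨g1, g2, g3, g4, g5⟩ := h𝓜 L hL
      have h1 := hfa L hL
      obtain ⟨l, hl⟩ := haR L g1
      have h2 := hR L g1
      have h3 := hb L g1
      rw [hl] at h2 h3
      have h4 := (parity c hc l (a L) (b L) h2.1 h3).1 (by rw [g2, g3, hαβ])
      rw [← hl] at h4
      omega
    · have : (Hs.card + 2) * k ≤ (k + 2) * k := Nat.mul_le_mul_right _ (by omega)
      omega
    · omega
  · -- ends of different colours
    have hHK : Disjoint Hs Ks := by
      rw [Finset.disjoint_left]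
      intro x hx hx'
      have h1 := hHsc x hx
      have h2 := hKsc x hx'
      exact bool_three α β (c x) hαβ h1 h2
    obtain ⟨l, hl1, hl2⟩ := long_even (m := 2 * (f α + f β) - 2) hHs hKs hHK 𝓜 hpd hdH hdK R a b
      (fun L hL => hR L (hsub hL)) (fun L hL => hRL L (hsub hL)) (fun L hL => ha L (hsub hL))
      (fun L hL => hb L (hsub hL)) hadj hbdj (by omega) (by
        intro L hL L' hL'
        have h1 := hfa L hL
        have h2 := hfb L' hL'
        have h3 := hf α
        have h4 := hf β
        omega)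
    refine Or.inr (Or.inr ⟨l, hl1, ?_⟩)
    have h5 : f α + f β = f true + f false := bool_sum f α β hαβ
    rw [h5] at hl2
    omega

end basics

/-! ## Many pieces -/

section pieces

variable {V : Type*} [Fintype V] [DecidableEq V] {G : SimpleGraph V}

/-- Reachability inside `X`. -/
def Reach (G : SimpleGraph V) (X : Finset V) : V → V → Prop :=
  Relation.ReflTransGen (fun x y => G.Adj x y ∧ x ∈ X ∧ y ∈ X)

theorem Reach.symm {X : Finset V} {a b : V} (h : Reach G X a b) : Reach G X b a := by
  induction h with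
  | refl => exact Relation.ReflTransGen.refl
  | tail _ h ih => exact Relation.ReflTransGen.head ⟨h.1.symm, h.2.2, h.2.1⟩ ih

theorem Reach.mem {X : Finset V} {a b : V} (h : Reach G X a b) (ha : a ∈ X) : b ∈ X := by
  induction h with
  | refl => exact ha
  | tail _ h _ => exact h.2.2

open scoped Classical in
/-- The component of `x` in `X`. -/
noncomputable def comp (G : SimpleGraph V) (X : Finset V) (x : V) : Finset V :=
  X.filter (fun y => Reach G X x y)

theorem mem_comp {X : Finset V} {x y : V} : y ∈ comp G X x ↔ y ∈ X ∧ Reach G X x y := by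
  simp only [comp, Finset.mem_filter]

theorem comp_eq {X : Finset V} {x y : V} (h : y ∈ comp G X x) : comp G X y = comp G X x := by
  rw [mem_comp] at h
  ext z
  rw [mem_comp, mem_comp]
  constructor
  · rintro ⟨h1, h2⟩
    exact ⟨h1, h.2.trans h2⟩
  · rintro ⟨h1, h2⟩
    exact ⟨h1, h.2.symm.trans h2⟩

theorem comps_pd (X : Finset V) : PD (X.image (comp G X)) := by
  intro L hL L' hL' hne
  obtain ⟨x, _, rfl⟩ := Finset.mem_image.1 hL
  obtain ⟨y, _, rfl⟩ := Finset.mem_image.1 hL'
  rw [Finset.disjoint_left]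
  intro z hz hz'
  exact hne ((comp_eq hz).symm.trans (comp_eq hz'))

theorem comp_closed {X : Finset V} {x u w : V} (hu : u ∈ comp G X x) (hw : w ∈ X)
    (h : G.Adj u w) : w ∈ comp G X x := by
  rw [mem_comp] at hu ⊢
  exact ⟨hw, hu.2.tail ⟨h, hu.1, hw⟩⟩

theorem split (X : Finset V) (hX : X.Nonempty) (N m : ℕ) (h : N * m ≤ X.card) :
    N ≤ (X.image (comp G X)).card ∨ ∃ x ∈ X, m ≤ (comp G X x).card := by
  by_cases h1 : N ≤ (X.image (comp G X)).card
  · exact Or.inl h1
  · right
    push Not at h1
    obtain ⟨D, hD, hc⟩ := Finset.exists_le_card_fiber_of_mul_le_card_of_maps_to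
      (s := X) (t := X.image (comp G X)) (f := comp G X) (n := m)
      (fun x hx => Finset.mem_image_of_mem _ hx) (hX.image _)
      ((Nat.mul_le_mul_right _ h1.le).trans h)
    obtain ⟨x, hx, rfl⟩ := Finset.mem_image.1 hD
    refine ⟨x, hx, hc.trans (Finset.card_le_card ?_)⟩
    intro y hy
    rw [Finset.mem_filter] at hy
    rw [← hy.2, mem_comp]
    exact ⟨hy.1, Relation.ReflTransGen.refl⟩

/-- The size needed. -/
def F (N : ℕ) : ℕ → ℕ
  | 0 => 1
  | (j + 1) => N * F N j + 2

theorem rooted (N : ℕ) : ∀ (j : ℕ) (K : Finset V) (v : V), v ∈ K → (∀ x ∈ K, Reach G K v x) →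
    (∀ l, IsP G l → (∀ x ∈ l, x ∈ K) → l.head? = some v → l.length ≤ j) → F N j ≤ K.card →
    ∃ Z ⊆ K, Z.card ≤ j ∧ ∃ 𝓛 : Finset (Finset V), N ≤ 𝓛.card ∧ Pieces G K Z 𝓛 := by
  intro j
  induction j with
  | zero =>
    intro K v hv _ hp _
    have := hp [v] (IsP.singleton v) (by simpa using hv) rfl
    simp at this
  | succ j ih =>
    intro K v hv hr hp hcard
    have hce : (K.erase v).card = K.card - 1 := Finset.card_erase_of_mem hv
    have hF : F N (j + 1) = N * F N j + 2 := rfl
    have hXne : (K.erase v).Nonempty := by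
      rw [← Finset.card_pos]
      omega
    rcases split (G := G) (K.erase v) hXne N (F N j) (by omega) with h1 | ⟨x, hx, h1⟩
    · refine ⟨{v}, by simpa using hv, by simp, _, h1, comps_pd _, ?_⟩
      intro L hL
      obtain ⟨x, hx, rfl⟩ := Finset.mem_image.1 hL
      refine ⟨⟨x, mem_comp.2 ⟨hx, Relation.ReflTransGen.refl⟩⟩, ?_, ?_, ?_⟩
      · intro y hy
        exact Finset.mem_of_mem_erase (mem_comp.1 hy).1
      · rw [Finset.disjoint_singleton_right]
        intro hv'
        exact (Finset.mem_erase.1 (mem_comp.1 hv').1).1 rfl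
      · intro u hu w hw hadj
        by_cases hwv : w = v
        · right
          rw [hwv]
          exact Finset.mem_singleton_self v
        · left
          exact comp_closed hu (Finset.mem_erase.2 ⟨hwv, hw⟩) hadj
    · -- a neighbour of `v` in the component
      have hreach : ∀ y, Reach G K v y → y = v ∨ ∃ v' ∈ K.erase v, G.Adj v v' ∧
          Reach G (K.erase v) v' y := by
        intro y hy
        induction hy with
        | refl => exact Or.inl rfl
        | @tail b d hb hbd ihb =>
          by_cases hdv : d = v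
          · exact Or.inl hdv
          · right
            have hdX : d ∈ K.erase v := Finset.mem_erase.2 ⟨hdv, hbd.2.2⟩
            rcases ihb with rfl | ⟨v', h2, h3, h4⟩
            · exact ⟨d, hdX, hbd.1, Relation.ReflTransGen.refl⟩
            · refine ⟨v', h2, h3, h4.tail ⟨hbd.1, ?_, hdX⟩⟩
              exact h4.mem h2
      have hxv : x ≠ v := (Finset.mem_erase.1 hx).1
      obtain ⟨v', h2, h3, h4⟩ := (hreach x (hr x (Finset.mem_of_mem_erase hx))).resolve_left hxv
      have hv'D : v' ∈ comp G (K.erase v) x := mem_comp.2 ⟨h2, h4.symm⟩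
      have hDK : comp G (K.erase v) x ⊆ K := fun y hy =>
        Finset.mem_of_mem_erase (mem_comp.1 hy).1
      have hvD : v ∉ comp G (K.erase v) x := fun h =>
        (Finset.mem_erase.1 (mem_comp.1 h).1).1 rfl
      obtain ⟨Z, hZ1, hZ2, 𝓛, h𝓛1, h𝓛2, h𝓛3⟩ := ih (comp G (K.erase v) x) v' hv'D
        (by
          intro y hy
          have h5 : Reach G (K.erase v) v' y := h4.trans (mem_comp.1 hy).2
          clear hy
          induction h5 with
          | refl => exact Relation.ReflTransGen.refl
          | @tail b d hb hbd ihb =>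
            have hbD : b ∈ comp G (K.erase v) x :=
              mem_comp.2 ⟨hbd.2.1, h4.symm.trans hb⟩
            exact ihb.tail ⟨hbd.1, hbD, comp_closed hbD hbd.2.2 hbd.1⟩)
        (by
          intro l hl1 hl2 hl3
          have h5 := hp (v :: l) (hl1.cons (fun h => hvD (hl2 v h)) (by
            intro y hy
            rw [hl3] at hy
            simp only [Option.mem_def, Option.some.injEq] at hy
            rw [← hy]
            exact h3)) (by
            intro y hy
            rcases List.mem_cons.1 hy with rfl | hy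
            · exact hv
            · exact hDK (hl2 y hy)) rfl
          simp only [List.length_cons] at h5
          omega) h1
      refine ⟨insert v Z, ?_, ?_, 𝓛, h𝓛1, h𝓛2, ?_⟩
      · intro y hy
        rcases Finset.mem_insert.1 hy with rfl | hy
        · exact hv
        · exact hDK (hZ1 hy)
      · exact (Finset.card_insert_le _ _).trans (by omega)
      · intro L hL
        obtain ⟨g1, g2, g3, g4⟩ := h𝓛3 L hL
        refine ⟨g1, g2.trans hDK, ?_, ?_⟩
        · rw [Finset.disjoint_insert_right]
          exact ⟨fun h => hvD (g2 h), g3⟩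
        · intro u hu w hw hadj
          by_cases hwv : w = v
          · right
            rw [hwv]
            exact Finset.mem_insert_self v Z
          · rcases g4 u hu w (comp_closed (g2 hu) (Finset.mem_erase.2 ⟨hwv, hw⟩) hadj) hadj with
              h5 | h5
            · exact Or.inl h5
            · exact Or.inr (Finset.mem_insert_of_mem h5)

theorem exists_pieces (N k : ℕ) (H : Finset V) (hH : H.Nonempty)
    (hk : ∀ l, IsP G l → l.length < k) (hcard : N * F N k ≤ H.card) :
    ∃ Z ⊆ H, Z.card ≤ k ∧ ∃ 𝓛 : Finset (Finset V), N ≤ 𝓛.card ∧ Pieces G H Z 𝓛 := by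
  rcases split (G := G) H hH N (F N k) hcard with h1 | ⟨x, hx, h1⟩
  · refine ⟨∅, by simp, by simp, _, h1, comps_pd _, ?_⟩
    intro L hL
    obtain ⟨x, hx, rfl⟩ := Finset.mem_image.1 hL
    refine ⟨⟨x, mem_comp.2 ⟨hx, Relation.ReflTransGen.refl⟩⟩, fun y hy => (mem_comp.1 hy).1,
      by simp, ?_⟩
    intro u hu w hw hadj
    exact Or.inl (comp_closed hu hw hadj)
  · have hDH : comp G H x ⊆ H := fun y hy => (mem_comp.1 hy).1
    obtain ⟨Z, hZ1, hZ2, 𝓛, h𝓛1, h𝓛2, h𝓛3⟩ := rooted (G := G) N k (comp G H x) x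
      (mem_comp.2 ⟨hx, Relation.ReflTransGen.refl⟩)
      (by
        intro y hy
        have h5 : Reach G H x y := (mem_comp.1 hy).2
        clear hy
        induction h5 with
        | refl => exact Relation.ReflTransGen.refl
        | @tail b d hb hbd ihb =>
          have hbD : b ∈ comp G H x := mem_comp.2 ⟨hbd.2.1, hb⟩
          exact ihb.tail ⟨hbd.1, hbD, comp_closed hbD hbd.2.2 hbd.1⟩)
      (fun l hl _ _ => (hk l hl).le) h1
    refine ⟨Z, hZ1.trans hDH, hZ2, 𝓛, h𝓛1, h𝓛2, ?_⟩
    intro L hL
    obtain ⟨g1, g2, g3, g4⟩ := h𝓛3 L hL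
    refine ⟨g1, g2.trans hDH, g3, ?_⟩
    intro u hu w hw hadj
    exact g4 u hu w (comp_closed (g2 hu) hw hadj) hadj

/-- The core. -/
theorem exists_core [DecidableRel G.Adj] (f : V → ℕ) (C : ℕ) : ∀ (n : ℕ) (X : Finset V),
    X.card = n → 2 * (∑ v ∈ X, f v) + C < ∑ v ∈ X, (X.filter (G.Adj v)).card →
    ∃ H ⊆ X, (∀ v ∈ H, f v < (H.filter (G.Adj v)).card) ∧
      C < ∑ v ∈ H, (H.filter (G.Adj v)).card := by
  intro n
  induction n with
  | zero =>
    intro X hX h
    rw [Finset.card_eq_zero] at hX
    subst hX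
    simp at h
  | succ n ih =>
    intro X hX h
    by_cases hall : ∀ v ∈ X, f v < (X.filter (G.Adj v)).card
    · exact ⟨X, Finset.Subset.refl _, hall, by omega⟩
    · push Not at hall
      obtain ⟨v, hv, hle⟩ := hall
      have hc : (X.erase v).card = n := by
        rw [Finset.card_erase_of_mem hv, hX]
        rfl
      have h1 : ∀ u ∈ X, (X.filter (G.Adj u)).card =
          ((X.erase v).filter (G.Adj u)).card + (if G.Adj u v then 1 else 0) := by
        intro u _
        have h2 : X.filter (G.Adj u) = (insert v (X.erase v)).filter (G.Adj u) := by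
          rw [Finset.insert_erase hv]
        rw [h2, Finset.filter_insert]
        split_ifs with h3
        · rw [Finset.card_insert_of_notMem]
          simp
        · rfl
      have h2 : ∑ u ∈ X, (X.filter (G.Adj u)).card =
          ∑ u ∈ X.erase v, ((X.erase v).filter (G.Adj u)).card + 2 * (X.filter (G.Adj v)).card := by
        rw [← Finset.add_sum_erase X _ hv]
        have h3 : ∑ u ∈ X.erase v, (X.filter (G.Adj u)).card =
            ∑ u ∈ X.erase v, (((X.erase v).filter (G.Adj u)).card +
              (if G.Adj u v then 1 else 0)) :=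
          Finset.sum_congr rfl (fun u hu => h1 u (Finset.mem_of_mem_erase hu))
        rw [h3, Finset.sum_add_distrib]
        have h4 : ∑ u ∈ X.erase v, (if G.Adj u v then 1 else 0) = (X.filter (G.Adj v)).card := by
          rw [h1 v hv, if_neg (G.irrefl), add_zero, Finset.card_filter]
          apply Finset.sum_congr rfl
          intro u _
          simp only [G.adj_comm]
        rw [h4]
        ring
      have h3 : ∑ u ∈ X, f u = f v + ∑ u ∈ X.erase v, f u := (Finset.add_sum_erase X f hv).symm
      obtain ⟨H, hH1, hH2, hH3⟩ := ih (X.erase v) hc (by omega)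
      exact ⟨H, hH1.trans (Finset.erase_subset _ _), hH2, hH3⟩

/-- The constant in the upper bound. -/
def CC (k : ℕ) : ℕ :=
  (4 * 2 ^ k * 2 ^ k * ((k + (k + 2) * k) + 2 * k + 2) *
    F (4 * 2 ^ k * 2 ^ k * ((k + (k + 2) * k) + 2 * k + 2)) k) ^ 2

theorem upper [DecidableRel G.Adj] (c : V → Bool) (hc : ∀ u v, G.Adj u v → c u ≠ c v)
    (hG : G.Connected) (k q n : ℕ) (hkq : k ≤ 2 * q + 2) (hk : ∀ l, IsP G l → l.length < k)
    (hA : (Finset.univ.filter (fun v => c v = true)).card = n)
    (hB : (Finset.univ.filter (fun v => ¬ c v = true)).card = n) :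
    ∑ v : V, (Finset.univ.filter (G.Adj v)).card ≤ 2 * (q * n) + CC k := by
  by_contra hcon
  push Not at hcon
  have hmain : ∀ t, t ≤ q → Flex G c (k + (k + 2) * k) true (t + 1) ∨
      Flex G c (k + (k + 2) * k) false (q - t + 1) := by
    intro t ht
    have hsum : ∑ v : V, (if c v = true then t else q - t) = q * n := by
      rw [Finset.sum_ite, Finset.sum_const, Finset.sum_const, hA, hB, smul_eq_mul, smul_eq_mul]
      rw [← mul_add, mul_comm]
      congr 1
      omega
    obtain ⟨H, -, hH2, hH3⟩ := exists_core (G := G) (fun v => if c v = true then t else q - t)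
      (CC k) _ Finset.univ rfl (by rw [hsum]; exact hcon)
    have hHcard : 4 * 2 ^ k * 2 ^ k * ((k + (k + 2) * k) + 2 * k + 2) *
        F (4 * 2 ^ k * 2 ^ k * ((k + (k + 2) * k) + 2 * k + 2)) k < H.card := by
      by_contra hle
      push Not at hle
      have h1 : ∑ v ∈ H, (H.filter (G.Adj v)).card ≤ H.card * H.card := by
        rw [← smul_eq_mul]
        apply Finset.sum_le_card_nsmul
        intro v _
        exact Finset.card_filter_le _ _
      have h2 : H.card * H.card ≤ CC k := by
        rw [CC, sq]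
        exact Nat.mul_le_mul hle hle
      omega
    obtain ⟨Z, hZ1, hZ2, 𝓛, h𝓛1, h𝓛2⟩ := exists_pieces (G := G)
      (4 * 2 ^ k * 2 ^ k * ((k + (k + 2) * k) + 2 * k + 2)) k H
      (by rw [← Finset.card_pos]; omega) hk hHcard.le
    rcases key c hc (fun b => (if b = true then t else q - t) + 1) (fun b => by simp) H Z k
      (k + (k + 2) * k) hk hZ2 le_rfl 𝓛 h𝓛2 (fun v hv => hH2 v hv) h𝓛1 with h1 | h1 | ⟨l, h1, h2⟩
    · left
      simpa using h1
    · right
      simpa using h1
    · exfalso
      have h3 := hk l h1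
      simp at h2
      omega
  have hno : ∀ col, ¬ Flex G c (k + (k + 2) * k) col (q + 1) := by
    rintro col ⟨Z, _, _, h⟩
    obtain ⟨C, _, _, hne, hC⟩ := h ∅ (by simp) (by simp)
    obtain ⟨u, hu⟩ := hne
    obtain ⟨l, h1, _, _, h2⟩ := hC u hu
    have := hk l h1
    omega
  have hind : ∀ t, t ≤ q → Flex G c (k + (k + 2) * k) true (t + 1) := by
    intro t
    induction t with
    | zero =>
      intro h
      rcases hmain 0 h with h1 | h1
      · exact h1
      · exact absurd h1 (hno false)
    | succ t ih =>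
      intro h
      rcases hmain (t + 1) h with h1 | h1
      · exact h1
      · exfalso
        obtain ⟨l, h2, h3⟩ := flex_combine hG c (ih (by omega)) h1
        have := hk l h2
        omega
  exact hno true (hind q le_rfl)

end pieces

/-! ## The upper bound -/

theorem length_lt_of_free {V : Type*} {G : SimpleGraph V} {k : ℕ}
    (h : (SimpleGraph.pathGraph k).Free G) (l : List V) (hl : IsP G l) : l.length < k := by
  by_contra hle
  push Not at hle
  apply h
  refine ⟨⟨⟨fun i => l[i.val]'(lt_of_lt_of_le i.isLt hle), ?_⟩, ?_⟩⟩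
  · intro i j hij
    rw [SimpleGraph.pathGraph_adj] at hij
    have h1 := List.isChain_iff_getElem.1 hl.1
    rcases hij with h2 | h2
    · have h3 := h1 i.val (by omega)
      simp only [h2] at h3
      exact h3
    · have h3 := h1 j.val (by omega)
      simp only [h2] at h3
      exact h3.symm
  · intro i j hij
    have h1 := (List.Nodup.getElem_inj_iff hl.2).1 hij
    exact Fin.ext h1

theorem upper_bound {k q n : ℕ} (hkq : k ≤ 2 * q + 2) (G : SimpleGraph (Fin n ⊕ Fin n))
    (h1 : G ≤ completeBipartiteGraph (Fin n) (Fin n)) (h2 : G.Connected)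
    (h3 : (SimpleGraph.pathGraph k).Free G) : G.edgeSet.ncard ≤ q * n + CC k := by
  classical
  have hc : ∀ u v, G.Adj u v → u.isLeft ≠ v.isLeft := by
    intro u v huv
    have h4 := h1 huv
    cases u <;> cases v <;> simp_all [completeBipartiteGraph]
  have hcl : (Finset.univ.filter (fun v : Fin n ⊕ Fin n => v.isLeft = true)).card = n := by
    have : Finset.univ.filter (fun v : Fin n ⊕ Fin n => v.isLeft = true) =
        Finset.univ.map Function.Embedding.inl := by
      ext v
      cases v <;> simp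
    rw [this, Finset.card_map, Finset.card_univ, Fintype.card_fin]
  have hcr : (Finset.univ.filter (fun v : Fin n ⊕ Fin n => ¬ v.isLeft = true)).card = n := by
    have : Finset.univ.filter (fun v : Fin n ⊕ Fin n => ¬ v.isLeft = true) =
        Finset.univ.map Function.Embedding.inr := by
      ext v
      cases v <;> simp
    rw [this, Finset.card_map, Finset.card_univ, Fintype.card_fin]
  have h4 := upper (G := G) Sum.isLeft hc h2 k q n hkq (length_lt_of_free h3) hcl hcr
  have h5 := G.sum_degrees_eq_twice_card_edges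
  have h6 : ∑ v, (Finset.univ.filter (G.Adj v)).card = ∑ v, G.degree v := by
    apply Finset.sum_congr rfl
    intro v _
    rw [← SimpleGraph.card_neighborFinset_eq_degree, SimpleGraph.neighborFinset_eq_filter]
  have h7 : G.edgeSet.ncard = G.edgeFinset.card := by
    rw [Set.ncard_eq_toFinset_card', SimpleGraph.edgeFinset]
  rw [h6, h5] at h4
  rw [h7]
  omega

/-! ## The lower bound -/

/-- The extremal example: the first `q - 1` vertices of the left part and the first vertex of the
right part are joined to everything in the other part. -/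
def hubG (q n : ℕ) : SimpleGraph (Fin n ⊕ Fin n) where
  Adj x y := (∃ i j, x = Sum.inl i ∧ y = Sum.inr j ∧ (i.val + 1 < q ∨ j.val = 0)) ∨
    (∃ i j, y = Sum.inl i ∧ x = Sum.inr j ∧ (i.val + 1 < q ∨ j.val = 0))
  symm := ⟨by
    rintro x y (h | h)
    · exact Or.inr h
    · exact Or.inl h⟩
  loopless := ⟨by
    rintro x (⟨i, j, h1, h2, _⟩ | ⟨i, j, h1, h2, _⟩)
    · rw [h1] at h2
      cases h2
    · rw [h1] at h2
      cases h2⟩

theorem hubG_adj {q n : ℕ} (i j : Fin n) :
    (hubG q n).Adj (Sum.inl i) (Sum.inr j) ↔ (i.val + 1 < q ∨ j.val = 0) := by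
  constructor
  · rintro (⟨i', j', h1, h2, h3⟩ | ⟨i', j', h1, h2, h3⟩)
    · cases h1
      cases h2
      exact h3
    · cases h1
  · intro h
    exact Or.inl ⟨i, j, rfl, rfl, h⟩

theorem hubG_inl {q n : ℕ} (i : Fin n) (hi : ¬ (i.val + 1 < q)) (y : Fin n ⊕ Fin n)
    (h : (hubG q n).Adj (Sum.inl i) y) : ∃ j : Fin n, y = Sum.inr j ∧ j.val = 0 := by
  rcases h with (⟨i', j', h1, h2, h3⟩ | ⟨i', j', h1, h2, h3⟩)
  · cases h1
    exact ⟨j', h2, h3.resolve_left hi⟩
  · cases h2

theorem hubG_color {q n : ℕ} {x y : Fin n ⊕ Fin n} (h : (hubG q n).Adj x y) :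
    y.isLeft = !x.isLeft := by
  rcases h with (⟨i', j', rfl, rfl, h3⟩ | ⟨i', j', rfl, rfl, h3⟩) <;> rfl

theorem pig {q n : ℕ} (hq : 1 ≤ q) (w : ℕ → Fin n ⊕ Fin n)
    (hw : ∀ i < q, ∃ x : Fin n, w i = Sum.inl x ∧ x.val + 1 < q)
    (hinj : ∀ i < q, ∀ j < q, w i = w j → i = j) : False := by
  have hw' : ∀ i : Fin q, ∃ x : Fin n, w i = Sum.inl x ∧ x.val + 1 < q := fun i => hw i i.isLt
  choose x hx1 hx2 using hw'
  have h1 : Function.Injective (fun i : Fin q => (⟨(x i).val, by have := hx2 i; omega⟩ :
      Fin (q - 1))) := by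
    intro i j hij
    simp only [Fin.mk.injEq] at hij
    apply Fin.ext
    apply hinj i i.isLt j j.isLt
    rw [hx1, hx1, Fin.ext hij]
  have h2 := Fintype.card_le_of_injective _ h1
  simp only [Fintype.card_fin] at h2
  omega

theorem no_long_path {q n : ℕ} (hq : 2 ≤ q) (v : ℕ → Fin n ⊕ Fin n)
    (hinj : ∀ i ≤ 2 * q, ∀ j ≤ 2 * q, v i = v j → i = j)
    (hadj : ∀ i < 2 * q, (hubG q n).Adj (v i) (v (i + 1))) : False := by
  have hcol : ∀ i ≤ 2 * q, (v i).isLeft = (if i % 2 = 0 then (v 0).isLeft else !(v 0).isLeft) := by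
    intro i
    induction i with
    | zero => intro _; simp
    | succ i ih =>
      intro hi
      rw [hubG_color (hadj i (by omega)), ih (by omega)]
      rcases Nat.mod_two_eq_zero_or_one i with h | h
      · have h' : (i + 1) % 2 = 1 := by omega
        rw [h, h']
        simp
      · have h' : (i + 1) % 2 = 0 := by omega
        rw [h, h']
        simp
  -- interior vertices of the left part are hubs
  have hint : ∀ i, 1 ≤ i → i < 2 * q → ∀ x, v i = Sum.inl x → x.val + 1 < q := by
    intro i h1 h2 x hx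
    by_contra hn
    have e1 := hadj i h2
    rw [hx] at e1
    obtain ⟨j, hj, hj0⟩ := hubG_inl x hn _ e1
    have e2 := hadj (i - 1) (by omega)
    have e3 : i - 1 + 1 = i := by omega
    rw [e3, hx] at e2
    obtain ⟨j', hj', hj0'⟩ := hubG_inl x hn _ e2.symm
    have e4 : j = j' := Fin.ext (by omega)
    have e5 := hinj (i - 1) (by omega) (i + 1) (by omega) (by rw [hj, hj', e4])
    omega
  have hleft : ∀ i ≤ 2 * q, (v i).isLeft = true → ∃ x, v i = Sum.inl x := by
    intro i _ h
    exact Sum.isLeft_iff.1 h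
  by_cases h0 : (v 0).isLeft = true
  · -- even positions are in the left part
    have heven : ∀ i ≤ q, ∃ x, v (2 * i) = Sum.inl x := by
      intro i hi
      apply hleft _ (by omega)
      rw [hcol _ (by omega)]
      have : 2 * i % 2 = 0 := by omega
      rw [if_pos this, h0]
    obtain ⟨x0, hx0⟩ := heven 0 (by omega)
    obtain ⟨y0, hy0⟩ := heven q le_rfl
    by_cases hx : x0.val + 1 < q
    · apply pig (n := n) (by omega : 1 ≤ q) (fun i => v (2 * i))
      · intro i hi
        obtain ⟨x, hx'⟩ := heven i hi.le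
        refine ⟨x, hx', ?_⟩
        rcases Nat.eq_zero_or_pos i with rfl | hpos
        · rw [hx0] at hx'
          cases hx'
          exact hx
        · exact hint (2 * i) (by omega) (by omega) x hx'
      · intro i hi j hj hij
        have := hinj (2 * i) (by omega) (2 * j) (by omega) hij
        omega
    · by_cases hy : y0.val + 1 < q
      · apply pig (n := n) (by omega : 1 ≤ q) (fun i => v (2 * (i + 1)))
        · intro i hi
          obtain ⟨x, hx'⟩ := heven (i + 1) hi
          refine ⟨x, hx', ?_⟩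
          rcases Nat.lt_or_ge (i + 1) q with hlt | hge
          · exact hint (2 * (i + 1)) (by omega) (by omega) x hx'
          · have : i + 1 = q := by omega
            rw [this, hy0] at hx'
            cases hx'
            exact hy
        · intro i hi j hj hij
          have := hinj (2 * (i + 1)) (by omega) (2 * (j + 1)) (by omega) hij
          omega
      · -- both ends are no hubs
        have e1 := hadj 0 (by omega)
        have hx0' : v 0 = Sum.inl x0 := hx0
        rw [hx0'] at e1
        obtain ⟨j, hj, hj0⟩ := hubG_inl x0 hx _ e1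
        have e2 := hadj (2 * q - 1) (by omega)
        have e3 : 2 * q - 1 + 1 = 2 * q := by omega
        rw [e3, hy0] at e2
        obtain ⟨j', hj', hj0'⟩ := hubG_inl y0 hy _ e2.symm
        have e4 : j = j' := Fin.ext (by omega)
        have e5 := hinj (0 + 1) (by omega) (2 * q - 1) (by omega) (by rw [hj, hj', e4])
        omega
  · -- odd positions are in the left part
    apply pig (n := n) (by omega : 1 ≤ q) (fun i => v (2 * i + 1))
    · intro i hi
      obtain ⟨x, hx'⟩ : ∃ x, v (2 * i + 1) = Sum.inl x := by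
        apply hleft _ (by omega)
        rw [hcol _ (by omega)]
        have : ¬ ((2 * i + 1) % 2 = 0) := by omega
        rw [if_neg this]
        simpa using h0
      exact ⟨x, hx', hint (2 * i + 1) (by omega) (by omega) x hx'⟩
    · intro i hi j hj hij
      have := hinj (2 * i + 1) (by omega) (2 * j + 1) (by omega) hij
      omega

theorem hubG_free {q n k : ℕ} (hq : 2 ≤ q) (hk : 2 * q + 1 ≤ k) :
    (SimpleGraph.pathGraph k).Free (hubG q n) := by
  rintro ⟨φ⟩
  have hpos : ∀ i, min i (k - 1) < k := fun i => by omega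
  apply no_long_path (n := n) hq (fun i => φ.toHom ⟨min i (k - 1), hpos i⟩)
  · intro i hi j hj hij
    have h1 := φ.injective' hij
    simp only [Fin.mk.injEq] at h1
    omega
  · intro i hi
    apply φ.toHom.map_adj
    rw [SimpleGraph.pathGraph_adj]
    left
    simp only
    omega

theorem hubG_connected {q n : ℕ} (hq : 2 ≤ q) (hn : 1 ≤ n) : (hubG q n).Connected := by
  have h0 : ∀ x, (hubG q n).Reachable x (Sum.inl ⟨0, hn⟩) := by
    have hr : ∀ j, (hubG q n).Adj (Sum.inl ⟨0, hn⟩) (Sum.inr j) := by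
      intro j
      rw [hubG_adj]
      left
      simp only
      omega
    intro x
    cases x with
    | inr j => exact (hr j).symm.reachable
    | inl i =>
      have h1 : (hubG q n).Adj (Sum.inl i) (Sum.inr ⟨0, hn⟩) := by
        rw [hubG_adj]
        right
        rfl
      exact h1.reachable.trans (hr ⟨0, hn⟩).symm.reachable
  have : Nonempty (Fin n ⊕ Fin n) := ⟨Sum.inl ⟨0, hn⟩⟩
  exact ⟨fun x y => (h0 x).trans (h0 y).symm⟩

theorem hubG_le (q n : ℕ) : hubG q n ≤ completeBipartiteGraph (Fin n) (Fin n) := by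
  rintro x y (⟨i', j', rfl, rfl, h3⟩ | ⟨i', j', rfl, rfl, h3⟩) <;> simp [completeBipartiteGraph]

theorem hubG_edges {q n : ℕ} (hq : 1 ≤ q) (hn : q ≤ n) :
    q * n ≤ (hubG q n).edgeSet.ncard + q := by
  classical
  have hn0 : 0 < n := by omega
  set T := (Finset.univ : Finset (Fin n)).filter (fun i => i.val < q - 1) with hT
  have hTc : T.card = q - 1 := by
    rw [hT, Fin.card_filter_val_lt]
    omega
  set S : Finset (Fin n × Fin n) := (T ×ˢ Finset.univ) ∪ (Tᶜ ×ˢ {⟨0, hn0⟩}) with hS
  have hSc : S.card = (q - 1) * n + (n - (q - 1)) := by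
    rw [hS, Finset.card_union_of_disjoint, Finset.card_product, Finset.card_product,
      Finset.card_compl, hTc, Finset.card_univ, Fintype.card_fin, Finset.card_singleton, mul_one]
    rw [Finset.disjoint_left]
    rintro ⟨i, j⟩ h1 h2
    rw [Finset.mem_product] at h1 h2
    exact (Finset.mem_compl.1 h2.1) h1.1
  have himg : (S.image (fun p : Fin n × Fin n => s((Sum.inl p.1 : Fin n ⊕ Fin n), Sum.inr p.2)) :
      Set (Sym2 (Fin n ⊕ Fin n))) ⊆ (hubG q n).edgeSet := by
    intro e he
    rw [Finset.coe_image] at he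
    obtain ⟨⟨i, j⟩, hp, rfl⟩ := he
    rw [SimpleGraph.mem_edgeSet, hubG_adj]
    have hp' : (i, j) ∈ S := hp
    rw [hS, Finset.mem_union, Finset.mem_product, Finset.mem_product] at hp'
    rcases hp' with h | h
    · left
      have h5 := h.1
      rw [hT, Finset.mem_filter] at h5
      have h6 : i.val < q - 1 := h5.2
      omega
    · right
      have := Finset.mem_singleton.1 h.2
      simp only at this
      rw [this]
  have h1 := Set.ncard_le_ncard himg (Set.toFinite _)
  rw [Set.ncard_coe_finset, Finset.card_image_of_injective, hSc] at h1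
  · have h2 : (q - 1) * n + n = q * n := by
      obtain ⟨r, rfl⟩ : ∃ r, q = r + 1 := ⟨q - 1, by omega⟩
      simp only [Nat.add_sub_cancel]
      ring
    omega
  · rintro ⟨i, j⟩ ⟨i', j'⟩ h
    simp only [Sym2.eq_iff, Sum.inl.injEq, Sum.inr.injEq, reduceCtorEq, and_self, or_false] at h
    rw [h.1, h.2]

/-- **Main result.** For every `k ≥ 5` the maximum number of edges of a connected spanning subgraph
of `K_{n,n}` without a path on `k` vertices is `⌊(k - 1) / 2⌋ n + O(1)`. -/
theorem result (k : ℕ) (hk : 5 ≤ k) :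
    (∃ C : ℕ, ∀ n, k ≤ n → (k - 1) / 2 * n ≤ exbc n n k + C ∧
      exbc n n k ≤ (k - 1) / 2 * n + C) ∧
    Asymptotics.IsEquivalent Filter.atTop (fun n : ℕ => (exbc n n k : ℝ))
      (fun n : ℕ => (((k - 1) / 2 : ℕ) : ℝ) * n) := by
  obtain ⟨q, hq⟩ : ∃ q, q = (k - 1) / 2 := ⟨_, rfl⟩
  rw [← hq]
  have hq2 : 2 ≤ q := by omega
  have hkq : k ≤ 2 * q + 2 := by omega
  have hkq' : 2 * q + 1 ≤ k := by omega
  have hub : ∀ n, ∀ e ∈ {e | ∃ G : SimpleGraph (Fin n ⊕ Fin n),
      G ≤ completeBipartiteGraph (Fin n) (Fin n) ∧ G.Connected ∧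
      (SimpleGraph.pathGraph k).Free G ∧ G.edgeSet.ncard = e}, e ≤ q * n + CC k := by
    rintro n e ⟨G, h1, h2, h3, rfl⟩
    exact upper_bound hkq G h1 h2 h3
  have h1 : ∀ n, k ≤ n → q * n ≤ exbc n n k + (q + CC k) ∧ exbc n n k ≤ q * n + (q + CC k) := by
    intro n hn
    constructor
    · have h2 := hubG_edges (q := q) (n := n) (by omega) (by omega)
      have h3 : (hubG q n).edgeSet.ncard ≤ exbc n n k := by
        apply le_csSup ⟨q * n + CC k, hub n⟩
        exact ⟨hubG q n, hubG_le q n, hubG_connected hq2 (by omega), hubG_free hq2 hkq', rfl⟩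
      omega
    · have h2 : exbc n n k ≤ q * n + CC k := csSup_le' (hub n)
      omega
  refine ⟨⟨q + CC k, h1⟩, ?_⟩
  have hb : (fun n : ℕ => (exbc n n k : ℝ) - (q : ℝ) * n) =O[Filter.atTop]
      (fun _ : ℕ => (1 : ℝ)) := by
    apply Asymptotics.IsBigO.of_bound ((q + CC k : ℕ) : ℝ)
    filter_upwards [Filter.eventually_ge_atTop k] with n hn
    obtain ⟨h2, h3⟩ := h1 n hn
    have h2' : (q : ℝ) * n ≤ exbc n n k + ((q + CC k : ℕ) : ℝ) := by exact_mod_cast h2
    have h3' : (exbc n n k : ℝ) ≤ q * n + ((q + CC k : ℕ) : ℝ) := by exact_mod_cast h3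
    rw [Real.norm_eq_abs, abs_le, norm_one, mul_one]
    constructor <;> linarith
  have ho : (fun _ : ℕ => (1 : ℝ)) =o[Filter.atTop] (fun n : ℕ => (q : ℝ) * n) := by
    rw [Asymptotics.isLittleO_const_left]
    right
    apply tendsto_norm_atTop_atTop.comp
    apply Filter.Tendsto.const_mul_atTop
    · have : 0 < q := by omega
      exact_mod_cast this
    · exact tendsto_natCast_atTop_atTop
  exact hb.trans_isLittleO ho

end Pool.Agent.Results.MP_792a66_co.ConnectedPaths
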